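import Pool.Agent.Helper75.CV.Lu

/-!
# Project DV, block COV (F8): the input `ZoneC` of the block BAR
-/

open Finset Filter Topology

namespace CV

open DV
open RP4 (V Adj BdryPar Om avg)
open GF (Pl)

lemma mem_Inn {δ : ℝ} {z : Pl} {r : ℝ} {v : V} :
    v ∈ Inn δ z r ↔ |δ * v.1 - z.1| ≤ r ∧ |δ * v.2 - z.2| ≤ r := by
  show dist (pt δ v) z ≤ r ↔ _
  unfold pt
  rw [Prod.dist_eq, max_le_iff, Real.dist_eq, Real.dist_eq]

lemma mem_Out {δ : ℝ} {z : Pl} {s : ℝ} {v : V} :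
    v ∈ Out δ z s ↔ s ≤ |δ * v.1 - z.1| ∨ s ≤ |δ * v.2 - z.2| := by
  show s ≤ dist (pt δ v) z ↔ _
  unfold pt
  rw [Prod.dist_eq, le_max_iff, Real.dist_eq, Real.dist_eq]

lemma adj_real {δ : ℝ} (hδ : 0 < δ) {u v : V} (h : Adj u v) :
    |δ * u.1 - δ * v.1| ≤ δ ∧ |δ * u.2 - δ * v.2| ≤ δ := by
  obtain ⟨h1, h2⟩ := adj_kng h
  have h3 : |(u.1 : ℝ) - v.1| ≤ 1 := by exact_mod_cast h1
  have h4 : |(u.2 : ℝ) - v.2| ≤ 1 := by exact_mod_cast h2
  rw [← mul_sub, ← mul_sub, abs_mul, abs_mul, abs_of_pos hδ]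
  exact ⟨mul_le_of_le_one_right hδ.le h3, mul_le_of_le_one_right hδ.le h4⟩

/-- an even site next to a point -/
lemma exists_site {δ : ℝ} (hδ : 0 < δ) (z : Pl) : ∃ u : V, Even (RP4.par u) ∧ |δ * u.1 - z.1| ≤ δ ∧
    |δ * u.2 - z.2| ≤ δ := by
  obtain ⟨e, he0, he1, hep⟩ : ∃ e : ℤ, 0 ≤ e ∧ e ≤ 1 ∧ Even (⌊z.1 / δ⌋ + (⌊z.2 / δ⌋ + e)) := by
    refine ⟨(⌊z.1 / δ⌋ + ⌊z.2 / δ⌋) % 2, by omega, by omega, ?_⟩
    rw [Int.even_iff]
    omega
  refine ⟨(⌊z.1 / δ⌋, ⌊z.2 / δ⌋ + e), hep, ?_, ?_⟩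
  · have h1 := Int.floor_le (z.1 / δ)
    have h2 := Int.lt_floor_add_one (z.1 / δ)
    have h3 : δ * (z.1 / δ) = z.1 := mul_div_cancel₀ z.1 hδ.ne'
    show |δ * ((⌊z.1 / δ⌋ : ℤ) : ℝ) - z.1| ≤ δ
    rw [abs_le]
    constructor <;> nlinarith
  · have h1 := Int.floor_le (z.2 / δ)
    have h2 := Int.lt_floor_add_one (z.2 / δ)
    have h3 : δ * (z.2 / δ) = z.2 := mul_div_cancel₀ z.2 hδ.ne'
    have h4 : (0 : ℝ) ≤ e := by exact_mod_cast he0
    have h5 : (e : ℝ) ≤ 1 := by exact_mod_cast he1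
    show |δ * ((⌊z.2 / δ⌋ + e : ℤ) : ℝ) - z.2| ≤ δ
    push_cast
    rw [abs_le]
    constructor <;> nlinarith

/-- a square in macroscopic coordinates -/
lemma mem_Sq_real {δ : ℝ} (hδ : 0 < δ) {u v : V} {n : ℤ} :
    v ∈ Sq u n ↔ |δ * v.1 - δ * u.1| ≤ δ * n ∧ |δ * v.2 - δ * u.2| ≤ δ * n := by
  have key : ∀ a b : ℤ, |a - b| ≤ n ↔ |δ * a - δ * b| ≤ δ * n := by
    intro a b
    rw [← mul_sub, abs_mul, abs_of_pos hδ, mul_le_mul_iff_right₀ hδ]
    have h1 : |(a : ℝ) - b| = ((|a - b| : ℤ) : ℝ) := by push_cast; rfl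
    rw [h1]
    exact (Int.cast_le).symm
  exact and_congr (key _ _) (key _ _)

/-- **Z1** -/
theorem zoneC {c : ℝ} {K n0 : ℤ} (hc : 0 < c) (hLP : LP c K n0) : ZoneC := by
  obtain ⟨J, hJ1, hJ⟩ := lattice hc hLP
  intro a ε L s hε hs
  obtain ⟨m, N₀, h⟩ := hJ ⌈16 * |L| / s⌉₊ (2 * a) ε hε
  obtain ⟨Λ, hΛ⟩ : ∃ Λ, Λ = ⌈16 * |L| / s⌉₊ := ⟨_, rfl⟩
  rw [← hΛ] at h
  have hΛ' : 16 * |L| ≤ Λ * s := by
    have h1 := Nat.le_ceil (16 * |L| / s)
    rw [← hΛ, div_le_iff₀ hs] at h1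
    exact h1
  obtain ⟨q, hq⟩ : ∃ q : ℝ, q = (J : ℝ) * 4 ^ m := ⟨_, rfl⟩
  have hq1 : 1 ≤ q := by
    rw [hq]
    have h1 : (1 : ℝ) ≤ J := by exact_mod_cast hJ1
    have h2 : (1 : ℝ) ≤ 4 ^ m := one_le_pow₀ (by norm_num)
    nlinarith
  have hq0 : 0 < q := by linarith
  refine ⟨s / (8 * q), by positivity, ?_⟩
  have hev : ∀ᶠ δ in 𝓝[>] (0 : ℝ), δ < s / (32 * q * (N₀ + 1)) :=
    mem_nhdsWithin_of_mem_nhds (Iio_mem_nhds (by positivity))
  filter_upwards [hev, self_mem_nhdsWithin] with δ hδ1 hδ0 z D hD hzD hDL k hk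
  have hδ : 0 < δ := hδ0
  have hN0 : (0 : ℝ) ≤ N₀ := Nat.cast_nonneg _
  have hδs : δ * (32 * q * (N₀ + 1)) < s := by
    rwa [lt_div_iff₀ (by positivity)] at hδ1
  have b1 : 32 * (δ * q) ≤ s := by
    have : 0 ≤ δ * q * N₀ := by positivity
    nlinarith
  have b2 : δ ≤ δ * q := by nlinarith
  obtain ⟨n, hn⟩ : ∃ n, n = ⌊s / (4 * q * δ)⌋₊ := ⟨_, rfl⟩
  have hpos : 0 ≤ s / (4 * q * δ) := by positivity
  have n1 : (n : ℝ) * (4 * q * δ) ≤ s := by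
    have h1 := Nat.floor_le hpos
    rw [← hn, le_div_iff₀ (by positivity)] at h1
    exact h1
  have n2 : s < (n + 1) * (4 * q * δ) := by
    have h1 := Nat.lt_floor_add_one (s / (4 * q * δ))
    rw [← hn, div_lt_iff₀ (by positivity)] at h1
    exact h1
  have hnN : N₀ ≤ n := by
    rw [hn]
    refine Nat.le_floor ?_
    rw [le_div_iff₀ (by positivity)]
    have : 0 ≤ δ * q * N₀ := by positivity
    nlinarith
  obtain ⟨u, hu, u1, u2⟩ := exists_site hδ z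
  obtain ⟨M, hM⟩ : ∃ M, M = J * (4 ^ m * n) := ⟨_, rfl⟩
  have hMR : (M : ℝ) = q * n := by
    rw [hM, hq]
    push_cast
    ring
  have d1 : δ * M ≤ s / 4 := by
    rw [hMR]
    linarith
  have d2 : s / 8 ≤ δ * M := by
    rw [hMR]
    nlinarith
  have hM1 : 1 ≤ M := by
    by_contra h1
    have h2 : M = 0 := by omega
    rw [h2, Nat.cast_zero, mul_zero] at d2
    linarith
  rw [abs_le] at u1 u2
  have hDu : Sq u ((2 * M : ℕ) : ℤ) ⊆ (D : Set V) := by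
    intro v hv
    apply hzD
    rw [mem_Sq_real hδ] at hv
    push_cast at hv
    obtain ⟨h1, h2⟩ := hv
    rw [abs_le] at h1 h2
    rw [mem_Inn]
    exact ⟨abs_le.2 ⟨by linarith, by linarith⟩, abs_le.2 ⟨by linarith, by linarith⟩⟩
  have huD : u ∈ (D : Set V) := hDu ⟨by simp, by simp⟩
  have hDΛ : (D : Set V) ⊆ Sq u ((Λ * M : ℕ) : ℤ) := by
    intro v hv
    have h1 := mem_Inn.1 (hDL hv)
    have h2 := mem_Inn.1 (hDL huD)
    have h3 := le_abs_self L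
    have h4 : 2 * |L| ≤ δ * (Λ * M) := by
      have h5 : (Λ : ℝ) * (s / 8) ≤ Λ * (δ * M) := mul_le_mul_of_nonneg_left d2 (Nat.cast_nonneg _)
      nlinarith
    rw [mem_Sq_real hδ]
    push_cast
    simp only [Prod.fst_zero, Prod.snd_zero, sub_zero] at h1 h2
    obtain ⟨h5, h6⟩ := h1
    obtain ⟨h7, h8⟩ := h2
    rw [abs_le] at h5 h6 h7 h8
    exact ⟨abs_le.2 ⟨by linarith, by linarith⟩, abs_le.2 ⟨by linarith, by linarith⟩⟩
  have hb2 : (2 * |k|) ≤ 2 * a := by omega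
  have key := h n hnN u hu D hD (by rw [← hM]; exact hDu) (by rw [← hM]; exact hDΛ) (2 * |k|)
    (even_two_mul _) (by positivity) hb2
  rw [← hM] at key
  -- the deterministic part
  have det : ∀ g f : V → ℤ, (∀ v ∈ D, f v ≠ 0 ↔ g v - 2 * k ≠ 0) → ¬ Bk k δ z (s / (8 * q)) s g →
      ∃ x ∈ Sq u (n : ℤ), ∃ y, y ∉ Sq u (M : ℤ) ∧ Con (nz f) x y := by
    intro g f hf hB
    unfold Bk DV.Sep at hB
    push Not at hB
    obtain ⟨x, hx, y, hy, hxy⟩ := hB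
    have hr : s / (8 * q) + 2 * δ ≤ δ * n := by
      have h1 : s / (8 * q) * (8 * q) = s := div_mul_cancel₀ s (by positivity)
      have h2 : (s / (8 * q) + 2 * δ) * (8 * q) ≤ δ * n * (8 * q) := by nlinarith
      exact le_of_mul_le_mul_right h2 (by positivity)
    have hx1 : |δ * x.1 - z.1| ≤ s / (8 * q) + δ ∧ |δ * x.2 - z.2| ≤ s / (8 * q) + δ := by
      rcases hx with hx | ⟨w, hw, hwx⟩
      · obtain ⟨h1, h2⟩ := mem_Inn.1 hx
        exact ⟨by linarith, by linarith⟩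
      · obtain ⟨h1, h2⟩ := mem_Inn.1 hw
        obtain ⟨h3, h4⟩ := adj_real hδ hwx
        rw [abs_le] at h1 h2 h3 h4
        exact ⟨abs_le.2 ⟨by linarith, by linarith⟩, abs_le.2 ⟨by linarith, by linarith⟩⟩
    have hxn : x ∈ Sq u (n : ℤ) := by
      rw [mem_Sq_real hδ]
      obtain ⟨h1, h2⟩ := hx1
      rw [abs_le] at h1 h2
      push_cast
      exact ⟨abs_le.2 ⟨by linarith, by linarith⟩, abs_le.2 ⟨by linarith, by linarith⟩⟩
    have hyM : y ∉ Sq u (M : ℤ) := by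
      intro hyM
      rw [mem_Sq_real hδ] at hyM
      push_cast at hyM
      obtain ⟨h1, h2⟩ := hyM
      rw [abs_le] at h1 h2
      have hy1 : ¬ (|δ * y.1 - z.1| < s - δ ∧ |δ * y.2 - z.2| < s - δ) := by
        rintro ⟨h3, h4⟩
        rw [abs_lt] at h3 h4
        rcases hy with hy | ⟨w, hw, hwy⟩
        · rcases mem_Out.1 hy with h5 | h5
          · rw [le_abs] at h5
            rcases h5 with h5 | h5 <;> linarith
          · rw [le_abs] at h5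
            rcases h5 with h5 | h5 <;> linarith
        · obtain ⟨h6, h7⟩ := adj_real hδ hwy
          rw [abs_le] at h6 h7
          rcases mem_Out.1 hw with h5 | h5
          · rw [le_abs] at h5
            rcases h5 with h5 | h5 <;> linarith
          · rw [le_abs] at h5
            rcases h5 with h5 | h5 <;> linarith
      exact hy1 ⟨abs_lt.2 ⟨by linarith, by linarith⟩, abs_lt.2 ⟨by linarith, by linarith⟩⟩
    have hxM : x ∈ Sq u (M : ℤ) := by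
      refine Sq_mono ?_ hxn
      have h1 : n ≤ M := by
        rw [hM, ← mul_assoc]
        exact Nat.le_mul_of_pos_left n (by positivity)
      exact_mod_cast h1
    obtain ⟨p, p', h1, h2, h3, h4, h5, h6⟩ := hxy.exit (A := Sq u (M : ℤ)) hxM hyM
    have hsub : Sq u (M : ℤ) ⊆ (D : Set V) := (Sq_mono (by push_cast; omega)).trans hDu
    have hin : ∀ v ∈ (D : Set V), v ∈ nz (lev k g) → v ∈ nz f := fun v hv hv' => by
      have h7 : g v - 2 * k ≠ 0 := hv'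
      exact (hf v (Finset.mem_coe.1 hv)).2 h7
    have hp'D : p' ∈ (D : Set V) := by
      apply hDu
      obtain ⟨a1, a2⟩ := adj_kng h2
      obtain ⟨a3, a4⟩ := h4
      rw [abs_le] at a1 a2 a3 a4
      push_cast
      exact ⟨abs_le.2 ⟨by omega, by omega⟩, abs_le.2 ⟨by omega, by omega⟩⟩
    refine ⟨x, hxn, p', h6, ?_⟩
    have h7 : Con (nz f) x p := h1.mono (fun _ _ h => h) fun v hv => hin v (hsub hv.2) hv.1
    exact h7.step h2 (hin p' hp'D h5)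
  -- probabilities
  have hne := RP4.Om_nonempty hD
  have hfin : pr (Om D) (fun g => ¬ Bk k δ z (s / (8 * q)) s g) ≤ ε := by
    refine le_trans ?_ key
    have e1 : pr (Ab D (2 * |k|)) (fun g => ∃ x ∈ Sq u (n : ℤ), ∃ y, y ∉ Sq u (M : ℤ) ∧ Con (nz g) x y) =
        pr (Om D) (fun g => ∃ x ∈ Sq u (n : ℤ), ∃ y, y ∉ Sq u (M : ℤ) ∧ Con (nz (sh D (2 * |k|) g)) x y) := by
      unfold pr
      rw [avg_Ab]
    rw [e1]
    rcases le_total k 0 with hk0 | hk0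
    · refine pr_mono fun g hg hB => det g _ (fun v hv => ?_) hB
      rw [sh_in hv, abs_of_nonpos hk0]
      constructor <;> intro h1 <;> omega
    · have e2 : pr (Om D) (fun g => ∃ x ∈ Sq u (n : ℤ), ∃ y, y ∉ Sq u (M : ℤ) ∧
          Con (nz (sh D (2 * |k|) g)) x y) = pr (Om D) (fun g => ∃ x ∈ Sq u (n : ℤ), ∃ y, y ∉ Sq u (M : ℤ) ∧
          Con (nz (sh D (2 * |k|) fun v => -g v)) x y) := by
        unfold pr
        exact (RP4.avg_neg_Om (D := D) _).symm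
      rw [e2]
      refine pr_mono fun g hg hB => det g _ (fun v hv => ?_) hB
      rw [sh_in hv, abs_of_nonneg hk0]
      constructor <;> intro h1 <;> omega
  rw [pr_not hne] at hfin
  linarith

end CV
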