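import Pool.Agent.Helper75.CV.Zn
import Pool.Agent.Helper97.DV.Un

/-!
# Project DV (MP_973bc8_pr), block COV: the unconditional form of `ZoneC`
-/

namespace CV

/-- **Z1**, unconditional -/
theorem zoneC1 : DV.ZoneC := by
  obtain ⟨c, K, n0, hc, -, -, -, h⟩ := DV.exists_LP1
  exact zoneC hc h

end CV
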