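import Pool.Agent.Helper94.BR.Bs
import Pool.Agent.Helper97.DV.Lq
import Pool.Agent.Helper35.MD.G4b
import Pool.Agent.Helper14.KD.Q
import Pool.Agent.Helper27.GF.M5

/-!
# Project DV (MP_973bc8_pr), block COV: definitions

Circuits of a given level in flat domains (the input `ZoneC` of the block BAR).  Everything is in lattice units.
`Ab D b`: height functions on `D` with the constant boundary value `b`.  For a square `Sq u m` the outer clusters are the
nonzero clusters that leave it, that is the set `rv (Sq u m)ᶜ g`.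
-/

open Finset RP4

namespace CV

open DV

open Classical in
/-- `g` raised by `b` inside `D` -/
noncomputable def sh (D : Finset V) (b : ℤ) (g : V → ℤ) : V → ℤ := fun v => if v ∈ D then g v + b else 0

open Classical in
/-- the height functions on `D` with the boundary value `b` (for even `b`) -/
noncomputable def Ab (D : Finset V) (b : ℤ) : Finset (V → ℤ) := (Om D).image (sh D b)

/-- the sum of the heights -/
noncomputable def sm (T : Finset V) (g : V → ℤ) : ℝ := ∑ x ∈ T, (g x : ℝ)

open Classical in
/-- the sum of the absolute values over the sites of `T` in the outer clusters of `Sq u m` -/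
noncomputable def ab (T : Finset V) (u : V) (m : ℤ) (g : V → ℤ) : ℝ :=
  ∑ x ∈ T, if x ∈ rv (Sq u m)ᶜ g then |(g x : ℝ)| else 0

open Classical in
/-- the sum of the heights over the sites of `T` in the outer clusters of `Sq u m` -/
noncomputable def xo (T : Finset V) (u : V) (m : ℤ) (g : V → ℤ) : ℝ :=
  ∑ x ∈ T, if x ∈ rv (Sq u m)ᶜ g then (g x : ℝ) else 0

open Classical in
/-- the sum of the heights over the other sites of `T` -/
noncomputable def xi (T : Finset V) (u : V) (m : ℤ) (g : V → ℤ) : ℝ :=
  ∑ x ∈ T, if x ∈ rv (Sq u m)ᶜ g then 0 else (g x : ℝ)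

/-- the event of LOOP: no path of `|g| ≤ 1` joins `Sq u n` to the outside of `Sq u m` -/
def Oc (u : V) (n m : ℤ) (g : V → ℤ) : Prop :=
  ¬ ∃ a ∈ Sq u n, ∃ b, b ∉ Sq u m ∧ Con {w | |g w| ≤ 1} a b

lemma xo_add_xi (T : Finset V) (u : V) (m : ℤ) (g : V → ℤ) : xo T u m g + xi T u m g = sm T g := by
  unfold xo xi sm
  rw [← Finset.sum_add_distrib]
  refine Finset.sum_congr rfl fun x _ => ?_
  split_ifs <;> simp

lemma abs_xo_le (T : Finset V) (u : V) (m : ℤ) (g : V → ℤ) : |xo T u m g| ≤ ab T u m g := by
  unfold xo ab
  refine (Finset.abs_sum_le_sum_abs _ _).trans (le_of_eq (Finset.sum_congr rfl fun x _ => ?_))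
  split_ifs <;> simp

lemma ab_nonneg (T : Finset V) (u : V) (m : ℤ) (g : V → ℤ) : 0 ≤ ab T u m g := by
  unfold ab
  exact Finset.sum_nonneg fun x _ => by split_ifs <;> positivity

end CV
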