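import Pool.Agent.Helper75.CV.Df

/-!
# Project DV, block COV (F4): two nonzero paths through a blocked annulus are joined
-/

open Finset RP4

namespace CV

open DV

/-- **F4.** If no path of `|h| ≤ 1` joins `Sq x n` to the outside of `Sq x m` then two nonzero paths from `Sq x n'` to the outside
of `Sq x (2 * m + 2)` are joined.
PLAN (as `DV.sign_ann` in Helper97/DV/Lq.lean).  `R ∈ {2 n', 2 n' + 1}` with `Even (R + 1 + par x)`, `A = {v | nr x v ≤ R}` (the
distance `nr` of Helper97/DV/Nr.lean), `Q = {w | |h w| ≤ 1} ∪ A`, `C = clus Q A`.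
(1) `A ⊆ C`, `C ⊆ Sq x m`: for `v ∈ C`, `v ∉ A` the path from `A` to `v` has a last site in `A` (`Jn.exit` of the reversed path,
the set `Aᶜ`), the next site `b` has `nr x b ≤ R + 1 ≤ 2 n' + 2 ≤ n`, so `b ∈ Sq x n` (`Sq_of_nr_le`) and the rest is a path of
`|h| ≤ 1`; `hc`.  (2) `C` is connected: `clus_con` and `ball_con`.  (3) `v ∈ lay C`: `v ∉ C` has a neighbour `z ∈ C`, so `v ∉ Q`,
`2 ≤ |h v|`; `v` is an even site: if `z ∈ A` then `nr x v = R + 1` (`nr_adj`), `nr_par`; if `z ∉ A` then `|h z| ≤ 1`, `|h v| = 2`,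
`hh.par`.  So no two sites of `lay C` are adjacent.  (4) `lay_const` (Fl.lean) with the label `s v = comp (nz h) v`: the common
neighbour `c` of `b`, `d` lies in `Sq x (m + 2) ⊆ D`, `h c ≠ 0` because `|h c - h b| = 1`; `comp_eq_of_mem`.
(5) a path of nonzero sites from `A ⊆ C ⊆ fil C` to `b ∉ Sq x (2 m + 2)` (in `ext C` by `ray_ext` with the radius `2 m + 1`) meets
`lay C` (`Jn.exit` with `fil C`, `ext_bd`, as `key` in `sign_ann`); the two sites of `lay C` have the same component. -/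
theorem two_paths {D : Finset V} {h : V → ℤ} (hh : IsHom D 0 h) {x : V} {n n' m : ℤ} (hn' : 0 ≤ n')
    (hn : 2 * n' + 2 ≤ n) (hnm : n ≤ m) (hD : Sq x (m + 2) ⊆ (D : Set V)) (hc : Oc x n m h)
    {a b a' b' : V} (ha : a ∈ Sq x n') (ha' : a' ∈ Sq x n') (hb : b ∉ Sq x (2 * m + 2))
    (hb' : b' ∉ Sq x (2 * m + 2)) (h1 : Con (nz h) a b) (h2 : Con (nz h) a' b') : Con (nz h) a a' := by
  obtain ⟨R, hR1, hR2, hRp⟩ : ∃ R : ℤ, 2 * n' ≤ R ∧ R ≤ 2 * n' + 1 ∧ Even (R + 1 + par x) := by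
    rcases Int.even_or_odd (2 * n' + 1 + par x) with h | h
    · exact ⟨2 * n', le_rfl, by omega, h⟩
    · refine ⟨2 * n' + 1, by omega, le_rfl, ?_⟩
      rw [Int.odd_iff] at h
      rw [Int.even_iff]
      omega
  obtain ⟨A, hA⟩ : ∃ A : Set V, A = {v | nr x v ≤ R} := ⟨_, rfl⟩
  obtain ⟨Q, hQ⟩ : ∃ Q : Set V, Q = {w | |h w| ≤ 1} ∪ A := ⟨_, rfl⟩
  obtain ⟨C, hC⟩ : ∃ C : Set V, C = clus Q A := ⟨_, rfl⟩
  have mA : ∀ v, v ∈ A ↔ nr x v ≤ R := fun v => by rw [hA]; rfl
  have mQ : ∀ v, v ∈ Q ↔ |h v| ≤ 1 ∨ v ∈ A := fun v => by rw [hQ]; rfl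
  have hAC : ∀ v ∈ A, v ∈ C := fun v hv => by
    rw [hC]
    exact sub_clus hv ((mQ v).2 (Or.inr hv))
  have hCQ : ∀ v ∈ C, v ∈ Q := fun v hv => by
    rw [hC] at hv
    exact clus_sub _ _ hv
  have hCm : ∀ v ∈ C, v ∈ Sq x m := by
    intro v hv
    by_cases hvA : v ∈ A
    · have h3 := (mA v).1 hvA
      exact Sq_mono (by omega) (Sq_of_nr_le h3)
    · by_contra hcon
      rw [hC] at hv
      obtain ⟨u, hu, huv⟩ := hv
      have hvu : Con Q v u := Con.symm' huv
      obtain ⟨e, f, h3, h4, h5, h6, h7, h8⟩ := hvu.exit (A := Aᶜ) hvA (fun h => h hu)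
      have hf : f ∈ A := by
        by_contra hf
        exact h8 hf
      have h9 := nr_adj (x := x) h4
      rw [abs_eq (by norm_num)] at h9
      have h10 := (mA f).1 hf
      refine hc ⟨e, Sq_of_nr_le (by omega), v, hcon, Con.symm' (h3.mono (fun _ _ h => h) ?_)⟩
      rintro w ⟨hw1, hw2⟩
      exact ((mQ w).1 hw1).resolve_right hw2
  have hCn : ∀ v ∈ C, nr x v < 2 * m + 1 := fun v hv => by
    have h3 := nr_le_of_Sq (hCm v hv)
    omega
  have hCx : ∀ v ∈ C, Con C v x := by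
    have hball : ∀ v ∈ A, Con C v x := fun v hv => by
      have h3 := (mA v).1 hv
      refine (ball_con (R := R + 1) (by omega)).mono (fun _ _ h => h) fun w hw => ?_
      have hw' : nr x w < R + 1 := hw
      exact hAC w ((mA w).2 (by omega))
    intro v hv
    have hv0 := hv
    rw [hC] at hv
    obtain ⟨u, hu, huv⟩ := hv
    have h3 : Con C u v := (clus_con (sub_clus hu ((mQ u).2 (Or.inr hu))) huv).mono
      (fun _ _ h => h) fun w hw => by
        rw [hC]
        exact hw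
    exact (Con.symm' h3).trans (hball u hu)
  have hCc : Cnn C := fun u hu v hv => (hCx u hu).trans (Con.symm' (hCx v hv))
  have hCb : Bdd C := (bdd_Sq x m).mono fun v hv => hCm v hv
  have hstep : ∀ u v : V, Adj u v → v ∈ Sq x m → u ∈ Sq x (m + 1) := by
    intro u v huv hv
    have h3 := adj_kng huv
    have h4 := hv.1
    have h5 := hv.2
    have h6 := h3.1
    have h7 := h3.2
    refine ⟨?_, ?_⟩
    · have := abs_sub_le u.1 v.1 x.1
      omega
    · have := abs_sub_le u.2 v.2 x.2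
      omega
  have hstep' : ∀ u v : V, Adj u v → v ∈ Sq x (m + 1) → u ∈ Sq x (m + 2) := by
    intro u v huv hv
    have h3 := adj_kng huv
    have h4 := hv.1
    have h5 := hv.2
    have h6 := h3.1
    have h7 := h3.2
    refine ⟨?_, ?_⟩
    · have := abs_sub_le u.1 v.1 x.1
      omega
    · have := abs_sub_le u.2 v.2 x.2
      omega
  have hD1 : ∀ v ∈ Sq x (m + 1), v ∈ D := fun v hv => hD (Sq_mono (by omega) hv)
  have hl : ∀ v ∈ lay C, v ∈ Sq x (m + 1) ∧ 2 ≤ |h v| ∧ Even (par v) := by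
    intro v hv
    have hvC : v ∉ C := fun h => ext_sub C hv.1 h
    obtain ⟨-, z, hz, hvz⟩ := hv
    have hvS := hstep v z hvz (hCm z hz)
    have hvQ : v ∉ Q := fun h3 => hvC (by
      rw [hC] at hz ⊢
      exact clus_step hz (adj_symm hvz) h3)
    have hvQ' : ¬ |h v| ≤ 1 ∧ v ∉ A := by
      rw [mQ, not_or] at hvQ
      exact hvQ
    refine ⟨hvS, by have := hvQ'.1; omega, ?_⟩
    have h3 := hh.par v (hD1 v hvS)
    by_cases hzA : z ∈ A
    · have h4 := nr_adj (x := x) hvz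
      rw [abs_eq (by norm_num)] at h4
      have h5 := (mA z).1 hzA
      have h6 : ¬ nr x v ≤ R := fun h6 => hvQ'.2 ((mA v).2 h6)
      have h7 := nr_par x v
      rw [Int.even_iff] at h7 hRp ⊢
      omega
    · have h4 : |h z| ≤ 1 := ((mQ z).1 (hCQ z hz)).resolve_right hzA
      have h5 := hh.step v (hD1 v hvS) z (hD1 z (Sq_mono (by omega) (hCm z hz))) hvz
      have h6 := hvQ'.1
      rw [Int.even_iff] at h3 ⊢
      rcases abs_cases (h v) with h7 | h7 <;> rcases abs_cases (h z) with h8 | h8 <;>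
        rcases abs_cases (h v - h z) with h9 | h9 <;> rw [h7.1] at h6 <;> rw [h8.1] at h4 <;>
        rw [h9.1] at h5 <;> omega
  have hpar : ∀ u ∈ lay C, ∀ v ∈ lay C, ¬ Adj u v := by
    have key : ∀ b ∈ lay C, Even (par b - 0) := by
      intro b hb
      rw [sub_zero]
      exact (hl b hb).2.2
    intro u hu v hv
    rw [← Bd_ext] at hu hv key
    exact not_adj_of_par key u hu v hv
  have hconst : ∀ u ∈ lay C, ∀ u' ∈ lay C, comp (nz h) u = comp (nz h) u' := by
    intro u hu u' hu'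
    refine lay_const (s := comp (nz h)) hCb hCc hpar ?_ hu hu'
    intro z b c d hz hb hcE hd h3 h4 h5 h6 h7
    obtain ⟨g1, g2, g3⟩ := hl b hb
    obtain ⟨f1, f2, f3⟩ := hl d hd
    have hcD : c ∈ D := hD (hstep' c b (adj_symm h5) g1)
    have h8 := hh.step b (hD1 b g1) c hcD h5
    have hb0 : h b ≠ 0 := fun h9 => by rw [h9] at g2; norm_num at g2
    have hd0 : h d ≠ 0 := fun h9 => by rw [h9] at f2; norm_num at f2
    have hc0 : h c ≠ 0 := fun h9 => by
      rw [h9, sub_zero] at h8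
      omega
    have h9 : Con (nz h) b c := Jn.single h5 hb0 hc0
    have h10 : Con (nz h) b d := h9.step (adj_symm h6) hd0
    exact (comp_eq_of_mem h10).symm
  have key : ∀ a b : V, a ∈ Sq x n' → b ∉ Sq x (2 * m + 2) → Con (nz h) a b →
      ∃ v ∈ lay C, Con (nz h) a v := by
    intro a b ha hb hab
    have haA : a ∈ A := (mA a).2 ((nr_le_of_Sq ha).trans hR1)
    have hbE : b ∈ ext C := ray_ext hCn (by
      by_contra h3
      exact hb (Sq_of_nr_le (by omega)))
    obtain ⟨e, f, h3, h4, h5, h6, h7, h8⟩ := hab.exit (A := fil C) (sub_fil C (hAC a haA))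
      (fun h => h hbE)
    have h9 : f ∈ ext C := by
      by_contra h
      exact h8 h
    have h10 : e ∈ C := ext_bd h9 (adj_symm h4) fun h => h6 h
    exact ⟨f, ⟨h9, e, h10, adj_symm h4⟩,
      (h3.mono (fun _ _ h => h) Set.inter_subset_left).step h4 h7⟩
  obtain ⟨v, hv, hav⟩ := key a b ha hb h1
  obtain ⟨u, hu, hau⟩ := key a' b' ha' hb' h2
  have h3 : u ∈ comp (nz h) v := by
    rw [hconst v hv u hu]
    exact mem_comp_self hau.right
  exact hav.trans (Jn.trans h3 (Con.symm' hau))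

end CV
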