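import Pool.Agent.Helper75.CV.Df

/-!
# Project DV, block COV (F1): the correlation inequality for two increasing functions
-/

open Finset RP4

namespace CV

open DV

lemma IncF_mul {F G : (V → ℤ) → ℝ} (hF : IncF F) (hG : IncF G) : IncF fun g => F g * G g :=
  ⟨fun g => mul_nonneg (hF.nonneg g) (hG.nonneg g), fun g => by rw [hF.abs, hG.abs], fun g g' h1 h2 =>
    mul_le_mul (hF.mono g g' h1 h2) (hG.mono g g' h1 h2) (hG.nonneg g) (hF.nonneg g')⟩

/-- **F1.** Positive correlation of two increasing functions of the absolute value.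
PLAN.  Copy the proof of `DV.gfkg` (Helper97/DV/Gk.lean) with one family: `S = A.image absf`,
`m ξ = #{g ∈ A | absf g = ξ}`, `f₁ = m * F`, `f₂ = m * G`, `f₃ = m`, `f₄ = m * (F * G)` on `S` (zero off `S`),
`sg_supermodular` with `B' = B` for the weights, `F a * G b ≤ F (a ⊔ b) * G (a ⊔ b)`; `four_functions_theorem` with
`s = t = S`; sums by `sum_absf` for `F`, `G`, `F * G` and `1`. -/
theorem fkg_mul {D : Finset V} {p : ℤ} {B : Set V} {T : Set (V → ℤ)} {A : Finset (V → ℤ)}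
    (hA : Fam D p B T A) (hT : Lat D p T) {F G : (V → ℤ) → ℝ} (hF : IncF F) (hG : IncF G) :
    avg A F * avg A G ≤ avg A fun g => F g * G g := by
  classical
  rcases A.eq_empty_or_nonempty with rfl | hne
  · simp [avg]
  have hN : (0 : ℝ) < (A.card : ℝ) := by exact_mod_cast hne.card_pos
  have hFG : IncF fun g => F g * G g := IncF_mul hF hG
  obtain ⟨S, hS⟩ : ∃ S : Finset (V → ℤ), S = A.image absf := ⟨_, rfl⟩
  obtain ⟨m, hm⟩ : ∃ m : (V → ℤ) → ℝ, m = fun ξ => ((A.filter fun g => absf g = ξ).card : ℝ) :=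
    ⟨_, rfl⟩
  have hm0 : ∀ ξ, 0 ≤ m ξ := fun ξ => by rw [hm]; exact Nat.cast_nonneg _
  have hmem : ∀ ξ, ξ ∈ S ↔ IsHom D p ξ ∧ ξ ∈ T ∧ ∀ v, 0 ≤ ξ v := by
    intro ξ
    rw [hS]
    exact mem_image_absf hA
  -- the sums
  have eF : ∑ g ∈ A, F g = ∑ ξ ∈ S, m ξ * F ξ := by
    rw [hS, hm]
    exact sum_absf hA F hF.abs
  have eG : ∑ g ∈ A, G g = ∑ ξ ∈ S, m ξ * G ξ := by
    rw [hS, hm]
    exact sum_absf hA G hG.abs
  have eFG : ∑ g ∈ A, F g * G g = ∑ ξ ∈ S, m ξ * (F ξ * G ξ) := by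
    rw [hS, hm]
    exact sum_absf hA (fun g => F g * G g) hFG.abs
  have e1 : (A.card : ℝ) = ∑ ξ ∈ S, m ξ := by
    have h := sum_absf hA (fun _ => (1 : ℝ)) (fun _ => rfl)
    simp only [Finset.sum_const, nsmul_eq_mul, mul_one] at h
    rw [hS, hm]
    exact h
  -- the four functions
  obtain ⟨f₁, hf₁⟩ : ∃ f : (V → ℤ) → ℝ, f = fun a => if a ∈ S then m a * F a else 0 := ⟨_, rfl⟩
  obtain ⟨f₂, hf₂⟩ : ∃ f : (V → ℤ) → ℝ, f = fun a => if a ∈ S then m a * G a else 0 := ⟨_, rfl⟩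
  obtain ⟨f₃, hf₃⟩ : ∃ f : (V → ℤ) → ℝ, f = fun a => if a ∈ S then m a else 0 := ⟨_, rfl⟩
  obtain ⟨f₄, hf₄⟩ : ∃ f : (V → ℤ) → ℝ,
      f = fun a => if a ∈ S then m a * (F a * G a) else 0 := ⟨_, rfl⟩
  have pos : ∀ (f : (V → ℤ) → ℝ) (h : (V → ℤ) → ℝ), (∀ a, 0 ≤ h a) →
      f = (fun a => if a ∈ S then h a else 0) → 0 ≤ f := by
    intro f h h0 hf a
    rw [hf]
    show 0 ≤ (if a ∈ S then h a else 0)
    split_ifs
    · exact h0 a
    · exact le_rfl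
  have p1 : 0 ≤ f₁ := pos _ _ (fun a => mul_nonneg (hm0 a) (hF.nonneg a)) hf₁
  have p2 : 0 ≤ f₂ := pos _ _ (fun a => mul_nonneg (hm0 a) (hG.nonneg a)) hf₂
  have p3 : 0 ≤ f₃ := pos _ _ (fun a => hm0 a) hf₃
  have p4 : 0 ≤ f₄ := pos _ _ (fun a => mul_nonneg (hm0 a) (hFG.nonneg a)) hf₄
  have hkey : ∀ a b, f₁ a * f₂ b ≤ f₃ (a ⊓ b) * f₄ (a ⊔ b) := by
    intro a b
    by_cases ha : a ∈ S
    · by_cases hb : b ∈ S
      · obtain ⟨a1, a2, a3⟩ := (hmem a).1 ha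
        obtain ⟨b1, b2, b3⟩ := (hmem b).1 hb
        have hl := hT a a2 b b2 a1 b1 a3 b3
        have hinf' : a ⊓ b ∈ S := (hmem _).2 ⟨a1.inf b1, hl.1, fun v => le_min (a3 v) (b3 v)⟩
        have hsup' : a ⊔ b ∈ S :=
          (hmem _).2 ⟨a1.sup b1, hl.2, fun v => le_max_of_le_left (a3 v)⟩
        have h1 : f₁ a = m a * F a := by rw [hf₁]; exact if_pos ha
        have h2 : f₂ b = m b * G b := by rw [hf₂]; exact if_pos hb
        have h3 : f₃ (a ⊓ b) = m (a ⊓ b) := by rw [hf₃]; exact if_pos hinf'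
        have h4 : f₄ (a ⊔ b) = m (a ⊔ b) * (F (a ⊔ b) * G (a ⊔ b)) := by
          rw [hf₄]; exact if_pos hsup'
        rw [h1, h2, h3, h4]
        have hmm1 : m a * m b ≤ m (a ⊓ b) * m (a ⊔ b) := by
          have hsm := sg_supermodular a1 b1 a3 b3 (subset_refl B) (fun v hv hv' => absurd hv hv')
            (fun g => fiber_iff hA (hS ▸ ha) g) (fun g => fiber_iff hA (hS ▸ hb) g)
            (fun g => fiber_iff hA (hS ▸ hinf') g) (fun g => fiber_iff hA (hS ▸ hsup') g)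
          rw [hm]
          simp only
          exact_mod_cast hsm
        have hleF : F a ≤ F (a ⊔ b) := hF.mono a (a ⊔ b) a3 fun v => le_max_left (a v) (b v)
        have hleG : G b ≤ G (a ⊔ b) := hG.mono b (a ⊔ b) b3 fun v => le_max_right (a v) (b v)
        have hFGle : F a * G b ≤ F (a ⊔ b) * G (a ⊔ b) :=
          mul_le_mul hleF hleG (hG.nonneg _) (hF.nonneg _)
        have h0 : 0 ≤ F a * G b := mul_nonneg (hF.nonneg _) (hG.nonneg _)
        have hmm : (0 : ℝ) ≤ m (a ⊓ b) * m (a ⊔ b) := mul_nonneg (hm0 _) (hm0 _)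
        calc m a * F a * (m b * G b) = (m a * m b) * (F a * G b) := by ring
          _ ≤ (m (a ⊓ b) * m (a ⊔ b)) * (F a * G b) := mul_le_mul_of_nonneg_right hmm1 h0
          _ ≤ (m (a ⊓ b) * m (a ⊔ b)) * (F (a ⊔ b) * G (a ⊔ b)) :=
            mul_le_mul_of_nonneg_left hFGle hmm
          _ = m (a ⊓ b) * (m (a ⊔ b) * (F (a ⊔ b) * G (a ⊔ b))) := by ring
      · have h2 : f₂ b = 0 := by rw [hf₂]; exact if_neg hb
        rw [h2, mul_zero]
        exact mul_nonneg (p3 _) (p4 _)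
    · have h1 : f₁ a = 0 := by rw [hf₁]; exact if_neg ha
      rw [h1, zero_mul]
      exact mul_nonneg (p3 _) (p4 _)
  have hfour := four_functions_theorem f₁ f₂ f₃ f₄ p1 p2 p3 p4 hkey S S
  have s1 : ∑ a ∈ S, f₁ a = ∑ ξ ∈ S, m ξ * F ξ := by
    refine Finset.sum_congr rfl fun a ha => ?_
    rw [hf₁]
    exact if_pos ha
  have s2 : ∑ a ∈ S, f₂ a = ∑ ξ ∈ S, m ξ * G ξ := by
    refine Finset.sum_congr rfl fun a ha => ?_
    rw [hf₂]
    exact if_pos ha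
  have s3 : ∀ R : Finset (V → ℤ), ∑ a ∈ R, f₃ a ≤ ∑ ξ ∈ S, m ξ := by
    intro R
    rw [hf₃, ← Finset.sum_filter]
    exact Finset.sum_le_sum_of_subset_of_nonneg (fun a ha => (Finset.mem_filter.1 ha).2)
      (fun a _ _ => hm0 _)
  have s4 : ∀ R : Finset (V → ℤ), ∑ a ∈ R, f₄ a ≤ ∑ ξ ∈ S, m ξ * (F ξ * G ξ) := by
    intro R
    rw [hf₄, ← Finset.sum_filter]
    exact Finset.sum_le_sum_of_subset_of_nonneg (fun a ha => (Finset.mem_filter.1 ha).2)
      (fun a _ _ => mul_nonneg (hm0 _) (hFG.nonneg _))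
  have hfin : (∑ g ∈ A, F g) * (∑ g ∈ A, G g) ≤ (A.card : ℝ) * ∑ g ∈ A, F g * G g := by
    rw [eF, eG, eFG, e1, ← s1, ← s2]
    refine hfour.trans ?_
    exact mul_le_mul (s3 _) (s4 _) (Finset.sum_nonneg fun a _ => p4 a)
      (Finset.sum_nonneg fun a _ => hm0 _)
  unfold avg
  rw [div_mul_div_comm, div_le_div_iff₀ (mul_pos hN hN) hN]
  calc (∑ g ∈ A, F g) * (∑ g ∈ A, G g) * (A.card : ℝ)
      ≤ ((A.card : ℝ) * ∑ g ∈ A, F g * G g) * (A.card : ℝ) :=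
        mul_le_mul_of_nonneg_right hfin hN.le
    _ = (∑ g ∈ A, F g * G g) * ((A.card : ℝ) * (A.card : ℝ)) := by ring

end CV
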