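import Pool.Agent.Helper75.CV.Df

/-!
# Project DV, block COV (F2): monotonicity
-/

open Finset RP4

namespace CV

open DV

lemma nz_sub {g g' : V → ℤ} (h0 : ∀ v, 0 ≤ g v) (h : ∀ v, g v ≤ g' v) : nz g ⊆ nz g' := by
  intro v hv
  have h1 : g v ≠ 0 := hv
  have h2 := h0 v
  have h3 := h v
  show g' v ≠ 0
  omega

lemma rv_sub (A : Set V) {g g' : V → ℤ} (h : nz g ⊆ nz g') : rv A g ⊆ rv A g' := by
  rintro v (hv | ⟨u, hu, hc⟩)
  · exact Or.inl hv
  · exact Or.inr ⟨u, hu, hc.mono (fun _ _ h => h) h⟩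

lemma rv_absf (A : Set V) (g : V → ℤ) : rv A (absf g) = rv A g := rv_congr (nz_absf g)

lemma incF_ab (T : Finset V) (u : V) (m : ℤ) : IncF (ab T u m) := by
  classical
  refine ⟨ab_nonneg T u m, fun g => ?_, fun g g' h0 h => ?_⟩
  · unfold ab
    refine Finset.sum_congr rfl fun x _ => ?_
    rw [rv_absf]
    have h1 : |((absf g x : ℤ) : ℝ)| = |(g x : ℝ)| := by
      unfold absf
      rw [Int.cast_abs, abs_abs]
    rw [h1]
  · unfold ab
    refine Finset.sum_le_sum fun x _ => ?_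
    have h1 : |(g x : ℝ)| ≤ |(g' x : ℝ)| := by
      rw [← Int.cast_abs, ← Int.cast_abs]
      have h2 := h0 x
      have h3 := h x
      have h4 : |g x| ≤ |g' x| := by
        rw [abs_of_nonneg h2, abs_of_nonneg (h2.trans h3)]
        exact h3
      exact_mod_cast h4
    by_cases hx : x ∈ rv (Sq u m)ᶜ g
    · rw [if_pos hx, if_pos (rv_sub _ (nz_sub h0 h) hx)]
      exact h1
    · rw [if_neg hx]
      split_ifs
      · exact abs_nonneg _
      · exact le_rfl

lemma inc_Jn (A B : Set V) : Inc (JnNz A B) := by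
  refine ⟨fun g => ?_, fun g g' h0 h hJ => ?_⟩
  · unfold JnNz
    rw [nz_absf]
  · obtain ⟨u, hu, v, hv, hc⟩ := hJ
    exact ⟨u, hu, v, hv, hc.mono (fun _ _ h => h) (nz_sub h0 h)⟩

lemma inc_Oc (u : V) (n m : ℤ) : Inc (Oc u n m) := by
  refine ⟨fun g => ?_, fun g g' h0 h hO => ?_⟩
  · have h1 : {w | |absf g w| ≤ 1} = {w | |g w| ≤ 1} := by
      ext w
      show |absf g w| ≤ 1 ↔ |g w| ≤ 1
      unfold absf
      rw [abs_abs]
    unfold Oc
    rw [h1]
  · rintro ⟨a, ha, b, hb, hc⟩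
    refine hO ⟨a, ha, b, hb, hc.mono (fun _ _ h => h) fun w hw => ?_⟩
    have h1 : |g' w| ≤ 1 := hw
    have h2 := h0 w
    have h3 := h w
    rw [abs_le] at h1
    show |g w| ≤ 1
    rw [abs_le]
    omega

lemma IncF.mul {F G : (V → ℤ) → ℝ} (hF : IncF F) (hG : IncF G) : IncF fun g => F g * G g :=
  ⟨fun g => mul_nonneg (hF.nonneg g) (hG.nonneg g), fun g => by rw [hF.abs, hG.abs], fun g g' h1 h2 =>
    mul_le_mul (hF.mono g g' h1 h2) (hG.mono g g' h1 h2) (hG.nonneg g) (hF.nonneg g')⟩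

end CV
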