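import Pool.Agent.Helper75.CV.Df

/-!
# Project DV, block COV (F3): signs with a nonnegative boundary value
-/

open Finset RP4

namespace CV

open DV

private lemma Sg_dom {D : Finset V} {g : V → ℤ} (h : IsHom D 0 g) {v : V} (hv : v ∈ nz g) : v ∈ D := by
  by_contra h'
  exact hv (h.off v h')

private lemma Sg_pos {D : Finset V} {g : V → ℤ} (h : IsHom D 0 g) {u v : V} (c : Con (nz g) u v)
    (hu : 0 < g u) : 0 < g v := by
  refine Jn.prop (P := fun w => 0 < g w) c hu ?_
  intro a b' hab ha hb hpa
  have h1 := h.step a (Sg_dom h ha) b' (Sg_dom h hb) hab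
  have hb0 : g b' ≠ 0 := hb
  have hpa' : 0 < g a := hpa
  show 0 < g b'
  rcases (abs_eq (by norm_num : (0 : ℤ) ≤ 1)).1 h1 with h2 | h2 <;> omega

private lemma Sg_neg {D : Finset V} {g : V → ℤ} (h : IsHom D 0 g) {u v : V} (c : Con (nz g) u v)
    (hu : g u < 0) : g v < 0 := by
  refine Jn.prop (P := fun w => g w < 0) c hu ?_
  intro a b' hab ha hb hpa
  have h1 := h.step a (Sg_dom h ha) b' (Sg_dom h hb) hab
  have hb0 : g b' ≠ 0 := hb
  have hpa' : g a < 0 := hpa
  show g b' < 0
  rcases (abs_eq (by norm_num : (0 : ℤ) ≤ 1)).1 h1 with h2 | h2 <;> omega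

private lemma Sg_mul {D : Finset V} {g : V → ℤ} (h : IsHom D 0 g) {u v : V} (c : Con (nz g) u v) :
    |(g u : ℝ)| * |(g v : ℝ)| = (g u : ℝ) * g v := by
  have hu : g u ≠ 0 := c.left
  rcases lt_or_gt_of_ne hu with h1 | h1
  · have h2 := Sg_neg h c h1
    have h1' : (g u : ℝ) < 0 := by exact_mod_cast h1
    have h2' : (g v : ℝ) < 0 := by exact_mod_cast h2
    rw [abs_of_neg h1', abs_of_neg h2', neg_mul_neg]
  · have h2 := Sg_pos h c h1
    have h1' : (0 : ℝ) < (g u : ℝ) := by exact_mod_cast h1
    have h2' : (0 : ℝ) < (g v : ℝ) := by exact_mod_cast h2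
    rw [abs_of_pos h1', abs_of_pos h2']

private lemma Sg_flp_self (g : V → ℤ) (x : V) : flp (comp (nz g) x) g x = -g x := by
  unfold flp
  by_cases h : g x = 0
  · rw [h]
    simp
  · rw [if_pos (mem_comp_self h)]

private lemma Sg_flp_off {g : V → ℤ} {x y : V} (h : ¬ Con (nz g) x y) :
    flp (comp (nz g) x) g y = g y := by
  have h' : y ∉ comp (nz g) x := h
  unfold flp
  rw [if_neg h']

private lemma Sg_mem {D : Finset V} {b : ℤ} {A : Finset (V → ℤ)}
    (hA : ∀ g, g ∈ A ↔ IsHom D 0 g ∧ ∀ v ∈ bdry D, g v = b) {g : V → ℤ} (hg : g ∈ A) {x : V}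
    (hx : ¬ ∃ w ∈ bdry D, Con (nz g) x w) : flp (comp (nz g) x) g ∈ A := by
  rw [hA] at hg ⊢
  refine ⟨flp_isHom hg.1 (fun u hu v huv hv => comp_step hu huv hv), fun v hv => ?_⟩
  rw [Sg_flp_off (fun h => hx ⟨v, hv, h⟩)]
  exact hg.2 v hv

/-- **F3.** Boundary value `b ≥ 0`: the nonzero clusters that meet the boundary are positive, the signs of the other ones
are independent.
PLAN.  Put `P x g := ∃ w ∈ bdry D, Con (nz g) x w`.  For `g ∈ A`: (1) if `Con (nz g) x y` then `g x`, `g y` have the same sign
(`Jn.prop`: adjacent nonzero sites lie in `D` by `off`, the heights differ by one), so `g x * g y = |g x| |g y|`.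
(2) If `P x g` then `0 < g x` (same argument, `g w = b ≥ 0` and `g w ≠ 0`).
(3) Sum of `g x * g y` over `g ∈ A` with `¬ Con (nz g) x y` is nonnegative: on `P x g ∧ P y g` each term is `≥ 0` by (2); on the
rest it vanishes: involution `Φ g = flp (comp (nz g) x) g` if `¬ P x g` and `Φ g = flp (comp (nz g) y) g` otherwise (Pz.lean:
`flp`, `flp_flp`, `nz_flp`, `flp_isHom`; `NzU` from `comp_step`; the boundary values do not change because the cluster misses
`bdry D`); `nz (Φ g) = nz g` so the case is the same for `Φ g`; exactly one of the two factors changes sign as `x`, `y` are not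
joined (if `g x = 0` or `g y = 0` the product is zero).  `Finset.sum_nbij'` or `Finset.sum_involution`. -/
theorem cov_pos {D : Finset V} {b : ℤ} (hb : 0 ≤ b) {A : Finset (V → ℤ)}
    (hA : ∀ g, g ∈ A ↔ IsHom D 0 g ∧ ∀ v ∈ bdry D, g v = b) (x y : V) [∀ g : V → ℤ, Decidable (Con (nz g) x y)] :
    ∑ g ∈ A, (if Con (nz g) x y then |(g x : ℝ)| * |(g y : ℝ)| else 0) ≤ ∑ g ∈ A, (g x : ℝ) * g y := by
  classical
  set P : V → (V → ℤ) → Prop := fun z g => ∃ w ∈ bdry D, Con (nz g) z w with hP
  have hPf : ∀ (z : V) (W : Set V) (g : V → ℤ), P z (flp W g) ↔ P z g := fun z W g => by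
    simp only [hP, nz_flp]
  have hPpos : ∀ g ∈ A, ∀ z, P z g → 0 < g z := by
    rintro g hg z ⟨w, hw, hc⟩
    obtain ⟨h1, h2⟩ := (hA g).1 hg
    have h3 : g w ≠ 0 := hc.right
    have h4 : g w = b := h2 w hw
    exact Sg_pos h1 hc.symm' (by omega)
  set G : (V → ℤ) → ℝ := fun g =>
    if Con (nz g) x y ∨ (P x g ∧ P y g) then 0 else (g x : ℝ) * g y with hG
  set Φ : (V → ℤ) → V → ℤ := fun g =>
    if P x g then (if P y g then g else flp (comp (nz g) y) g) else flp (comp (nz g) x) g with hΦ
  have hΦm : ∀ g ∈ A, Φ g ∈ A := by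
    intro g hg
    simp only [hΦ]
    split_ifs with h1 h2
    · exact hg
    · exact Sg_mem hA hg h2
    · exact Sg_mem hA hg h1
  have hΦΦ : ∀ g ∈ A, Φ (Φ g) = g := by
    intro g _
    by_cases h1 : P x g
    · by_cases h2 : P y g
      · have e : Φ g = g := by
          simp only [hΦ]
          rw [if_pos h1, if_pos h2]
        rw [e, e]
      · have e : Φ g = flp (comp (nz g) y) g := by
          simp only [hΦ]
          rw [if_pos h1, if_neg h2]
        rw [e]
        simp only [hΦ]
        rw [if_pos ((hPf x _ g).2 h1), if_neg (fun h => h2 ((hPf y _ g).1 h)), nz_flp, flp_flp]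
    · have e : Φ g = flp (comp (nz g) x) g := by
        simp only [hΦ]
        rw [if_neg h1]
      rw [e]
      simp only [hΦ]
      rw [if_neg (fun h => h1 ((hPf x _ g).1 h)), nz_flp, flp_flp]
  have hGΦ : ∀ g ∈ A, G (Φ g) = -G g := by
    intro g _
    by_cases hc : Con (nz g) x y
    · have e1 : G g = 0 := by
        simp only [hG]
        rw [if_pos (Or.inl hc)]
      have e2 : nz (Φ g) = nz g := by
        simp only [hΦ]
        split_ifs
        · rfl
        · exact nz_flp _ _
        · exact nz_flp _ _
      have e3 : G (Φ g) = 0 := by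
        simp only [hG]
        rw [if_pos (Or.inl (by rw [e2]; exact hc))]
      rw [e1, e3, neg_zero]
    · by_cases h1 : P x g
      · by_cases h2 : P y g
        · have e : Φ g = g := by
            simp only [hΦ]
            rw [if_pos h1, if_pos h2]
          have e1 : G g = 0 := by
            simp only [hG]
            rw [if_pos (Or.inr ⟨h1, h2⟩)]
          rw [e, e1, neg_zero]
        · have e : Φ g = flp (comp (nz g) y) g := by
            simp only [hΦ]
            rw [if_pos h1, if_neg h2]
          have hc' : ¬ Con (nz g) y x := fun h => hc h.symm'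
          have e1 : G g = (g x : ℝ) * g y := by
            simp only [hG]
            rw [if_neg]
            rintro (h | h)
            · exact hc h
            · exact h2 h.2
          have e2 : G (Φ g) = ((Φ g) x : ℝ) * (Φ g) y := by
            simp only [hG]
            rw [if_neg]
            rintro (h | h)
            · rw [e, nz_flp] at h
              exact hc h
            · rw [e] at h
              exact h2 ((hPf y _ g).1 h.2)
          rw [e1, e2, e, Sg_flp_self, Sg_flp_off hc']
          push_cast
          ring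
      · have e : Φ g = flp (comp (nz g) x) g := by
          simp only [hΦ]
          rw [if_neg h1]
        have e1 : G g = (g x : ℝ) * g y := by
          simp only [hG]
          rw [if_neg]
          rintro (h | h)
          · exact hc h
          · exact h1 h.1
        have e2 : G (Φ g) = ((Φ g) x : ℝ) * (Φ g) y := by
          simp only [hG]
          rw [if_neg]
          rintro (h | h)
          · rw [e, nz_flp] at h
            exact hc h
          · rw [e] at h
            exact h1 ((hPf x _ g).1 h.1)
        rw [e1, e2, e, Sg_flp_self, Sg_flp_off hc]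
        push_cast
        ring
  have hG0 : ∑ g ∈ A, G g = 0 := by
    have h1 : ∑ g ∈ A, G (Φ g) = ∑ g ∈ A, G g :=
      Finset.sum_nbij' Φ Φ hΦm hΦm hΦΦ hΦΦ (fun _ _ => rfl)
    rw [Finset.sum_congr rfl hGΦ, Finset.sum_neg_distrib] at h1
    linarith
  have key : ∀ g ∈ A, (if Con (nz g) x y then |(g x : ℝ)| * |(g y : ℝ)| else 0) + G g ≤
      (g x : ℝ) * g y := by
    intro g hg
    by_cases hc : Con (nz g) x y
    · have e1 : G g = 0 := by
        simp only [hG]
        rw [if_pos (Or.inl hc)]
      rw [if_pos hc, e1, add_zero, Sg_mul ((hA g).1 hg).1 hc]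
    · rw [if_neg hc, zero_add]
      by_cases h2 : P x g ∧ P y g
      · have e1 : G g = 0 := by
          simp only [hG]
          rw [if_pos (Or.inr h2)]
        rw [e1]
        have h3 : (0 : ℝ) < (g x : ℝ) := by exact_mod_cast hPpos g hg x h2.1
        have h4 : (0 : ℝ) < (g y : ℝ) := by exact_mod_cast hPpos g hg y h2.2
        exact (mul_pos h3 h4).le
      · have e1 : G g = (g x : ℝ) * g y := by
          simp only [hG]
          rw [if_neg]
          rintro (h | h)
          · exact hc h
          · exact h2 h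
        rw [e1]
  have h5 := Finset.sum_le_sum key
  rw [Finset.sum_add_distrib, hG0, add_zero] at h5
  exact h5

end CV
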