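import Pool.Agent.Helper75.CV.Sh
import Pool.Agent.Helper75.CV.Fk
import Pool.Agent.Helper75.CV.Sg
import Pool.Agent.Helper75.CV.Dt

/-!
# Project DV, block COV (F6): the key inequality
-/

open Finset RP4

namespace CV

open DV

/-- on the joining event the outer clusters at `u` and at `v` are one cluster -/
lemma joined {D : Finset V} {h : V → ℤ} (hh : IsHom D 0 h) {u v : V} {n n₁ m mo k k₁ l lo : ℤ} (hn0 : 0 ≤ n)
    (hn : 2 * n + 2 ≤ n₁) (hnm : n₁ ≤ m) (hmo : 2 * m + 3 ≤ mo) (hD : Sq u (m + 2) ⊆ (D : Set V)) (hO : Oc u n₁ m h)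
    (hk0 : 0 ≤ k) (hk : 2 * k + 2 ≤ k₁) (hkl : k₁ ≤ l) (hlo : 2 * l + 3 ≤ lo) (hD' : Sq v (l + 2) ⊆ (D : Set V))
    (hO' : Oc v k₁ l h) (hd : Disjoint (Sq v k) (Sq u mo)) (hd' : Disjoint (Sq u n) (Sq v lo))
    (hJ : JnNz (Sq u n) (Sq v k) h) {x y : V} (hx : x ∈ Sq u n) (hy : y ∈ Sq v k)
    (hxr : x ∈ rv (Sq u mo)ᶜ h) (hyr : y ∈ rv (Sq v lo)ᶜ h) : Con (nz h) x y := by
  obtain ⟨a, ha, b, hb, hab⟩ := hJ
  have far : ∀ {u : V} {m mo : ℤ}, 2 * m + 3 ≤ mo → ∀ w ∈ nb (Sq u mo)ᶜ, w ∉ Sq u (2 * m + 2) := by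
    intro u m mo hmo w hw hw'
    rcases hw with hw | ⟨z, hz, hzw⟩
    · exact hw (Sq_mono (by omega) hw')
    · apply hz
      have h1 := adj_kng hzw
      obtain ⟨h2, h3⟩ := h1
      obtain ⟨h4, h5⟩ := hw'
      rw [abs_le] at h2 h3 h4 h5
      exact ⟨abs_le.2 ⟨by omega, by omega⟩, abs_le.2 ⟨by omega, by omega⟩⟩
  have out : ∀ {u x : V} {n m mo : ℤ}, 2 * m + 3 ≤ mo → n ≤ mo → x ∈ Sq u n → x ∈ rv (Sq u mo)ᶜ h →
      ∃ w, w ∉ Sq u (2 * m + 2) ∧ Con (nz h) x w := by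
    intro u x n m mo hmo hn hx hxr
    rcases hxr with hxr | ⟨w, hw, hc⟩
    · exact absurd (Sq_mono hn hx) hxr
    · exact ⟨w, far hmo w hw, hc.symm'⟩
  obtain ⟨w, hw, hxw⟩ := out hmo (by omega) hx hxr
  obtain ⟨w', hw', hyw'⟩ := out hlo (by omega) hy hyr
  have hb' : b ∉ Sq u (2 * m + 2) := fun h1 =>
    Set.disjoint_left.1 hd hb (Sq_mono (by omega) h1)
  have ha' : a ∉ Sq v (2 * l + 2) := fun h1 =>
    Set.disjoint_left.1 hd' ha (Sq_mono (by omega) h1)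
  have e1 : Con (nz h) x a := two_paths hh hn0 hn hnm hD hO hx ha hw hb' hxw hab
  have e2 : Con (nz h) y b := two_paths hh hk0 hk hkl hD' hO' hy hb hw' ha' hyw' hab.symm'
  exact e1.trans (hab.trans e2.symm')

open Classical in
/-- **F6.** The key inequality -/
theorem key_ineq {D : Finset V} (hD0 : BdryPar D 0) {b : ℤ} (hb : Even b) (hb0 : 0 ≤ b) {u v : V}
    {n n₁ m mo k k₁ l lo : ℤ} (hn0 : 0 ≤ n)
    (hn : 2 * n + 2 ≤ n₁) (hnm : n₁ ≤ m) (hmo : 2 * m + 3 ≤ mo) (hD : Sq u (m + 2) ⊆ (D : Set V))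
    (hk0 : 0 ≤ k) (hk : 2 * k + 2 ≤ k₁) (hkl : k₁ ≤ l) (hlo : 2 * l + 3 ≤ lo) (hD' : Sq v (l + 2) ⊆ (D : Set V))
    (hd : Disjoint (Sq v k) (Sq u mo)) (hd' : Disjoint (Sq u n) (Sq v lo))
    {T S : Finset V} (hT : (T : Set V) ⊆ Sq u n) (hS : (S : Set V) ⊆ Sq v k) (hTD : T ⊆ D) (hSD : S ⊆ D) :
    pr (Ab D b) (JnNz (Sq u n) (Sq v k)) * (pr (Om D) (Oc u n₁ m) * pr (Om D) (Oc v k₁ l) *
      (avg (Om D) (ab T u mo) * avg (Om D) (ab S v lo))) ≤
      avg (Om D) (fun g => sm T g * sm S g) + (b : ℝ) ^ 2 * (T.card * S.card) := by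
  set A := Ab D b with hA
  have hfam := fam_Ab (D := D) hb hb0
  have hlat := lat_Tb D 0 (bdry D : Set V) fun _ => b
  set F1 := ab T u mo with hF1
  set F2 := ab S v lo with hF2
  set G1 : (V → ℤ) → ℝ := fun g => if Oc u n₁ m g then 1 else 0 with hG1
  set G2 : (V → ℤ) → ℝ := fun g => if Oc v k₁ l g then 1 else 0 with hG2
  set J : (V → ℤ) → ℝ := fun g => if JnNz (Sq u n) (Sq v k) g then 1 else 0 with hJ
  have i1 : IncF F1 := incF_ab T u mo
  have i2 : IncF F2 := incF_ab S v lo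
  have j1 : IncF G1 := (inc_Oc u n₁ m).incF
  have j2 : IncF G2 := (inc_Oc v k₁ l).incF
  have j3 : IncF J := (inc_Jn (Sq u n) (Sq v k)).incF
  have avn : ∀ {F : (V → ℤ) → ℝ} {B : Finset (V → ℤ)}, IncF F → 0 ≤ avg B F := fun hF =>
    div_nonneg (Finset.sum_nonneg fun g _ => hF.nonneg g) (Nat.cast_nonneg _)
  -- the product of the means
  have p1 : avg A J * (avg A G1 * avg A G2 * (avg A F1 * avg A F2)) ≤
      avg A fun g => J g * ((G1 g * G2 g) * (F1 g * F2 g)) := by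
    have q1 := fkg_mul hfam hlat i1 i2
    have q2 := fkg_mul hfam hlat j1 j2
    have q3 := fkg_mul hfam hlat (IncF.mul j1 j2) (IncF.mul i1 i2)
    have q4 := fkg_mul hfam hlat j3 (IncF.mul (IncF.mul j1 j2) (IncF.mul i1 i2))
    refine le_trans (mul_le_mul_of_nonneg_left ?_ (avn j3)) q4
    refine le_trans ?_ q3
    exact mul_le_mul q2 q1 (mul_nonneg (avn i1) (avn i2)) (avn (IncF.mul j1 j2))
  -- comparison with the boundary value zero
  have m1 : avg (Om D) F1 ≤ avg A F1 := avg_Ab_mono hD0 hb hb0 i1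
  have m2 : avg (Om D) F2 ≤ avg A F2 := avg_Ab_mono hD0 hb hb0 i2
  have m3 : pr (Om D) (Oc u n₁ m) ≤ avg A G1 := pr_Ab_mono hD0 hb hb0 (inc_Oc u n₁ m)
  have m4 : pr (Om D) (Oc v k₁ l) ≤ avg A G2 := pr_Ab_mono hD0 hb hb0 (inc_Oc v k₁ l)
  have p2 : pr A (JnNz (Sq u n) (Sq v k)) * (pr (Om D) (Oc u n₁ m) * pr (Om D) (Oc v k₁ l) *
      (avg (Om D) F1 * avg (Om D) F2)) ≤ avg A J * (avg A G1 * avg A G2 * (avg A F1 * avg A F2)) := by
    refine mul_le_mul_of_nonneg_left ?_ (pr_nonneg _ _)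
    exact mul_le_mul (mul_le_mul m3 m4 (pr_nonneg _ _) (avn j1)) (mul_le_mul m1 m2 (avn i2) (avn i1))
      (mul_nonneg (avn i1) (avn i2)) (mul_nonneg (avn j1) (avn j2))
  -- the pointwise bound by the connected pairs
  have p3 : ∀ g ∈ A, J g * ((G1 g * G2 g) * (F1 g * F2 g)) ≤
      ∑ x ∈ T, ∑ y ∈ S, if Con (nz g) x y then |(g x : ℝ)| * |(g y : ℝ)| else 0 := by
    intro g hg
    have hg1 := ((mem_Ab hb g).1 hg).1
    have hR : 0 ≤ ∑ x ∈ T, ∑ y ∈ S, if Con (nz g) x y then |(g x : ℝ)| * |(g y : ℝ)| else 0 :=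
      Finset.sum_nonneg fun x _ => Finset.sum_nonneg fun y _ => by split_ifs <;> positivity
    by_cases h1 : JnNz (Sq u n) (Sq v k) g
    · by_cases h2 : Oc u n₁ m g
      · by_cases h3 : Oc v k₁ l g
        · have e : J g * ((G1 g * G2 g) * (F1 g * F2 g)) = F1 g * F2 g := by
            simp only [hJ, hG1, hG2, if_pos h1, if_pos h2, if_pos h3, one_mul]
          rw [e, hF1, hF2]
          unfold ab
          rw [Finset.sum_mul_sum]
          refine Finset.sum_le_sum fun x hx => Finset.sum_le_sum fun y hy => ?_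
          by_cases hxr : x ∈ rv (Sq u mo)ᶜ g
          · by_cases hyr : y ∈ rv (Sq v lo)ᶜ g
            · have hc := joined hg1 hn0 hn hnm hmo hD h2 hk0 hk hkl hlo hD' h3 hd hd' h1
                (hT (Finset.mem_coe.2 hx)) (hS (Finset.mem_coe.2 hy)) hxr hyr
              rw [if_pos hxr, if_pos hyr, if_pos hc]
            · rw [if_neg hyr, mul_zero]
              split_ifs <;> positivity
          · rw [if_neg hxr, zero_mul]
            split_ifs <;> positivity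
        · have e : J g * ((G1 g * G2 g) * (F1 g * F2 g)) = 0 := by
            simp only [hG2, if_neg h3, mul_zero, zero_mul]
          rw [e]
          exact hR
      · have e : J g * ((G1 g * G2 g) * (F1 g * F2 g)) = 0 := by
          simp only [hG1, if_neg h2, mul_zero, zero_mul]
        rw [e]
        exact hR
    · have e : J g * ((G1 g * G2 g) * (F1 g * F2 g)) = 0 := by
        simp only [hJ, if_neg h1, zero_mul]
      rw [e]
      exact hR
  have hc : (0 : ℝ) < A.card := by exact_mod_cast (Ab_nonempty hD0 b).card_pos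
  have p4 : avg A (fun g => J g * ((G1 g * G2 g) * (F1 g * F2 g))) ≤ avg A (fun g => sm T g * sm S g) := by
    unfold avg
    rw [div_le_div_iff_of_pos_right hc]
    calc ∑ g ∈ A, J g * ((G1 g * G2 g) * (F1 g * F2 g))
        ≤ ∑ g ∈ A, ∑ x ∈ T, ∑ y ∈ S, (if Con (nz g) x y then |(g x : ℝ)| * |(g y : ℝ)| else 0) :=
          Finset.sum_le_sum p3
      _ = ∑ x ∈ T, ∑ y ∈ S, ∑ g ∈ A, (if Con (nz g) x y then |(g x : ℝ)| * |(g y : ℝ)| else 0) := by
          rw [Finset.sum_comm]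
          refine Finset.sum_congr rfl fun x _ => ?_
          rw [Finset.sum_comm]
      _ ≤ ∑ x ∈ T, ∑ y ∈ S, ∑ g ∈ A, (g x : ℝ) * g y :=
          Finset.sum_le_sum fun x _ => Finset.sum_le_sum fun y _ => cov_pos hb0 (mem_Ab hb) x y
      _ = ∑ g ∈ A, sm T g * sm S g := by
          have e : ∀ g : V → ℤ, sm T g * sm S g = ∑ x ∈ T, ∑ y ∈ S, (g x : ℝ) * g y := fun g => by
            unfold sm
            rw [Finset.sum_mul_sum]
          rw [Finset.sum_congr rfl fun g _ => e g]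
          rw [Finset.sum_comm (s := A)]
          refine Finset.sum_congr rfl fun x _ => ?_
          rw [Finset.sum_comm]
  rw [avg_Ab_sm hD0 hTD hSD] at p4
  exact p2.trans (p1.trans p4)

end CV
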