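import Pool.Agent.Helper75.CV.Df

/-!
# Project DV, block COV (F5b): moments of the outer clusters
-/

open Finset RP4

namespace CV

open DV

/-- the sign change of the outer clusters: `xo` changes sign, `xi` does not.
PLAN.  `flA (nb (Sq u m)ᶜ) g` (Helper97/DV/Pz.lean): it changes the sign on `clus (nz g) (nb (Sq u m)ᶜ)`; for `x ∈ T ⊆ Sq u m` this is
the condition `x ∈ rv (Sq u m)ᶜ g`; `rv_congr`, `nz_flA`. -/
theorem xo_flA {T : Finset V} {u : V} {m : ℤ} (hT : (T : Set V) ⊆ Sq u m) (g : V → ℤ) :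
    xo T u m (flA (nb (Sq u m)ᶜ) g) = -xo T u m g ∧ xi T u m (flA (nb (Sq u m)ᶜ) g) = xi T u m g := by
  have hr : rv (Sq u m)ᶜ (flA (nb (Sq u m)ᶜ) g) = rv (Sq u m)ᶜ g := rv_congr (nz_flA _ _)
  have h1 : ∀ x ∈ T, x ∈ rv (Sq u m)ᶜ g → flA (nb (Sq u m)ᶜ) g x = -g x := by
    intro x hx h
    rcases h with h | h
    · exact absurd (hT (Finset.mem_coe.2 hx)) h
    · unfold flA flp
      rw [if_pos h]
  have h2 : ∀ x, x ∉ rv (Sq u m)ᶜ g → flA (nb (Sq u m)ᶜ) g x = g x := by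
    intro x h
    unfold flA flp
    rw [if_neg fun h' => h (Or.inr h')]
  constructor
  · unfold xo
    rw [← Finset.sum_neg_distrib, hr]
    refine Finset.sum_congr rfl fun x hx => ?_
    split_ifs with h
    · rw [h1 x hx h]
      push_cast
      ring
    · simp
  · unfold xi
    rw [hr]
    refine Finset.sum_congr rfl fun x hx => ?_
    split_ifs with h
    · rfl
    · rw [h2 x h]

/-- the sum of an odd expression vanishes -/
private lemma sum_odd (D : Finset V) {T : Finset V} {u : V} {m : ℤ} (hT : (T : Set V) ⊆ Sq u m) (F : ℝ → ℝ → ℝ)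
    (hF : ∀ a b, F (-a) b = -F a b) : ∑ g ∈ Om D, F (xo T u m g) (xi T u m g) = 0 := by
  have h1 := sum_flA (sgnInv_Zs D 0 (bdry D)) (nb (Sq u m)ᶜ) fun g => F (xo T u m g) (xi T u m g)
  have h2 : ∑ g ∈ Zs D 0 (bdry D), F (xo T u m (flA (nb (Sq u m)ᶜ) g)) (xi T u m (flA (nb (Sq u m)ᶜ) g)) =
      -∑ g ∈ Zs D 0 (bdry D), F (xo T u m g) (xi T u m g) := by
    rw [← Finset.sum_neg_distrib]
    refine Finset.sum_congr rfl fun g _ => ?_
    rw [(xo_flA hT g).1, (xo_flA hT g).2, hF]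
  rw [h2] at h1
  unfold Om
  linarith

/-- PLAN.  `sum_flA`, `sgnInv_Zs` (`Om D = Zs D 0 (bdry D)`): the sums of `xo * xi` vanish. -/
theorem sm_sq (D : Finset V) {T : Finset V} {u : V} {m : ℤ} (hT : (T : Set V) ⊆ Sq u m) :
    avg (Om D) (fun g => sm T g ^ 2) =
      avg (Om D) (fun g => xo T u m g ^ 2) + avg (Om D) (fun g => xi T u m g ^ 2) := by
  have h0 := sum_odd D hT (fun a b => 2 * a * b) (fun a b => by ring)
  unfold avg
  rw [← add_div]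
  congr 1
  rw [← Finset.sum_add_distrib]
  have h1 : ∀ g ∈ Om D, sm T g ^ 2 = (xo T u m g ^ 2 + xi T u m g ^ 2) + 2 * xo T u m g * xi T u m g := by
    intro g _
    rw [← xo_add_xi T u m g]
    ring
  rw [Finset.sum_congr rfl h1, Finset.sum_add_distrib, h0, add_zero]

/-- PLAN.  the sums of `xo ^ 3 * xi` and `xo * xi ^ 3` vanish, `(a + b) ^ 4 = a ^ 4 + 6 a ^ 2 b ^ 2 + b ^ 4 + odd terms`. -/
theorem sm_pow (D : Finset V) {T : Finset V} {u : V} {m : ℤ} (hT : (T : Set V) ⊆ Sq u m) :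
    avg (Om D) (fun g => xo T u m g ^ 4) ≤ avg (Om D) (fun g => sm T g ^ 4) := by
  have h0 := sum_odd D hT (fun a b => 4 * a ^ 3 * b + 4 * a * b ^ 3) (fun a b => by ring)
  unfold avg
  refine div_le_div_of_nonneg_right ?_ (Nat.cast_nonneg _)
  have h1 : ∀ g ∈ Om D, sm T g ^ 4 = (xo T u m g ^ 4 + (6 * xo T u m g ^ 2 * xi T u m g ^ 2 + xi T u m g ^ 4)) +
      (4 * xo T u m g ^ 3 * xi T u m g + 4 * xo T u m g * xi T u m g ^ 3) := by
    intro g _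
    rw [← xo_add_xi T u m g]
    ring
  rw [Finset.sum_congr rfl h1, Finset.sum_add_distrib, h0, add_zero]
  refine Finset.sum_le_sum fun g _ => ?_
  have h2 : 0 ≤ 6 * xo T u m g ^ 2 * xi T u m g ^ 2 + xi T u m g ^ 4 := by positivity
  linarith

/-- interpolation of moments.
PLAN.  `Finset.sum_mul_sq_le_sq_mul_sq` twice: `(∑ X ^ 2) ^ 2 ≤ (∑ |X|) (∑ |X| ^ 3)` (with `√|X|`, or: the discriminant; or
`inner_le_nnorm_mul_nnorm`), `(∑ |X| ^ 3) ^ 2 ≤ (∑ X ^ 2) (∑ X ^ 4)`. -/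
theorem interp (A : Finset (V → ℤ)) (X : (V → ℤ) → ℝ) :
    avg A (fun g => X g ^ 2) ^ 3 ≤ avg A (fun g => |X g|) ^ 2 * avg A (fun g => X g ^ 4) := by
  have c1 := Finset.sum_mul_sq_le_sq_mul_sq A (fun g => Real.sqrt |X g|) (fun g => Real.sqrt |X g| * |X g|)
  have c2 := Finset.sum_mul_sq_le_sq_mul_sq A (fun g => |X g|) (fun g => X g ^ 2)
  have hs : ∀ g, Real.sqrt |X g| ^ 2 = |X g| := fun g => Real.sq_sqrt (abs_nonneg _)
  have hq : ∀ g, |X g| ^ 2 = X g ^ 2 := fun g => sq_abs _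
  have e1 : ∑ g ∈ A, Real.sqrt |X g| * (Real.sqrt |X g| * |X g|) = ∑ g ∈ A, X g ^ 2 :=
    Finset.sum_congr rfl fun g _ => by
      rw [← mul_assoc, ← pow_two, hs, ← pow_two, hq]
  have e2 : ∑ g ∈ A, Real.sqrt |X g| ^ 2 = ∑ g ∈ A, |X g| := Finset.sum_congr rfl fun g _ => hs g
  have e3 : ∑ g ∈ A, (Real.sqrt |X g| * |X g|) ^ 2 = ∑ g ∈ A, |X g| * X g ^ 2 :=
    Finset.sum_congr rfl fun g _ => by rw [mul_pow, hs, hq]
  have e4 : ∑ g ∈ A, |X g| ^ 2 = ∑ g ∈ A, X g ^ 2 := Finset.sum_congr rfl fun g _ => hq g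
  have e5 : ∑ g ∈ A, (X g ^ 2) ^ 2 = ∑ g ∈ A, X g ^ 4 := Finset.sum_congr rfl fun g _ => by ring
  simp only [e1, e2, e3] at c1
  simp only [e4, e5] at c2
  have n1 : 0 ≤ ∑ g ∈ A, |X g| := Finset.sum_nonneg fun g _ => abs_nonneg _
  have n2 : 0 ≤ ∑ g ∈ A, X g ^ 2 := Finset.sum_nonneg fun g _ => sq_nonneg _
  have n3 : 0 ≤ ∑ g ∈ A, |X g| * X g ^ 2 := Finset.sum_nonneg fun g _ => by positivity
  have n4 : 0 ≤ ∑ g ∈ A, X g ^ 4 := Finset.sum_nonneg fun g _ => by positivity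
  have key : (∑ g ∈ A, X g ^ 2) ^ 3 ≤ (∑ g ∈ A, |X g|) ^ 2 * ∑ g ∈ A, X g ^ 4 := by
    rcases n2.eq_or_lt with h | h
    · rw [← h]
      have : 0 ≤ (∑ g ∈ A, |X g|) ^ 2 * ∑ g ∈ A, X g ^ 4 := by positivity
      simpa using this
    · have h1 : (∑ g ∈ A, X g ^ 2) * (∑ g ∈ A, X g ^ 2) ^ 3 ≤
          (∑ g ∈ A, X g ^ 2) * ((∑ g ∈ A, |X g|) ^ 2 * ∑ g ∈ A, X g ^ 4) := by
        calc (∑ g ∈ A, X g ^ 2) * (∑ g ∈ A, X g ^ 2) ^ 3 = ((∑ g ∈ A, X g ^ 2) ^ 2) ^ 2 := by ring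
          _ ≤ ((∑ g ∈ A, |X g|) * ∑ g ∈ A, |X g| * X g ^ 2) ^ 2 := pow_le_pow_left₀ (sq_nonneg _) c1 2
          _ = (∑ g ∈ A, |X g|) ^ 2 * (∑ g ∈ A, |X g| * X g ^ 2) ^ 2 := by ring
          _ ≤ (∑ g ∈ A, |X g|) ^ 2 * ((∑ g ∈ A, X g ^ 2) * ∑ g ∈ A, X g ^ 4) :=
            mul_le_mul_of_nonneg_left c2 (sq_nonneg _)
          _ = _ := by ring
      exact le_of_mul_le_mul_left h1 h
  unfold avg
  have e6 : ((∑ g ∈ A, |X g|) / (A.card : ℝ)) ^ 2 * ((∑ g ∈ A, X g ^ 4) / (A.card : ℝ)) =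
      ((∑ g ∈ A, |X g|) ^ 2 * ∑ g ∈ A, X g ^ 4) / (A.card : ℝ) ^ 3 := by
    rw [div_pow, div_mul_div_comm]
    congr 1
  rw [e6, div_pow]
  exact div_le_div_of_nonneg_right key (by positivity)

/-- **F5b.** Lower bound of the absolute sum of the outer clusters: `V = E (sm T) ^ 2`, `E xi ^ 2 ≤ V / 2` gives
`E xo ^ 2 ≥ V / 2` (`sm_sq`); `E xo ^ 4 ≤ E (sm T) ^ 4 ≤ C (√V + #T) ^ 4 ≤ 16 C V ^ 2` (`GF.moments 4`, `w = 1`); `interp` for `xo`,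
`abs_xo_le`. -/
theorem ab_low : ∃ c : ℝ, 0 < c ∧ ∀ (D : Finset V), BdryPar D 0 → ∀ (u : V) (m : ℤ) (T : Finset V),
    (T : Set V) ⊆ Sq u m → (T.card : ℝ) ^ 2 ≤ avg (Om D) (fun g => sm T g ^ 2) →
    2 * avg (Om D) (fun g => xi T u m g ^ 2) ≤ avg (Om D) (fun g => sm T g ^ 2) →
      c * avg (Om D) (fun g => sm T g ^ 2) ≤ avg (Om D) (ab T u m) ^ 2 := by
  obtain ⟨C, hC, hm⟩ := GF.moments 4
  refine ⟨1 / (128 * (C + 1)), by positivity, fun D hD u m T hT h1 h2 => ?_⟩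
  obtain ⟨V0, hV⟩ : ∃ V0, V0 = avg (Om D) (fun g => sm T g ^ 2) := ⟨_, rfl⟩
  rw [← hV] at h1 h2 ⊢
  have hV0 : 0 ≤ V0 := (sq_nonneg _).trans h1
  have hlin : ∀ h : V → ℤ, GF.lin T (fun _ => 1) h = sm T h := by
    intro h
    unfold sm GF.lin
    exact Finset.sum_congr rfl fun x _ => one_mul _
  have m1 := hm D T (fun _ => 1) (Om_nonempty hD)
  have m2 : (∑ _x ∈ T, |(1 : ℝ)|) = T.card := by
    rw [abs_one, Finset.sum_const, nsmul_eq_mul, mul_one]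
  simp only [hlin] at m1
  rw [m2, ← hV] at m1
  have m3 : avg (Om D) (fun h => sm T h ^ 4) = avg (Om D) (fun h => |sm T h| ^ 4) := by
    congr 1
    funext h
    rw [show (4 : ℕ) = 2 * 2 from rfl, pow_mul, pow_mul, sq_abs]
  have m4 : (T.card : ℝ) ≤ Real.sqrt V0 := Real.le_sqrt_of_sq_le h1
  have m5 : (Real.sqrt V0 + T.card) ^ 4 ≤ 16 * V0 ^ 2 := by
    calc (Real.sqrt V0 + T.card) ^ 4 ≤ (2 * Real.sqrt V0) ^ 4 := by
          refine pow_le_pow_left₀ (by positivity) ?_ 4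
          linarith
      _ = 16 * (Real.sqrt V0 ^ 2) ^ 2 := by ring
      _ = 16 * V0 ^ 2 := by rw [Real.sq_sqrt hV0]
  have q4 : avg (Om D) (fun g => xo T u m g ^ 4) ≤ 16 * C * V0 ^ 2 := by
    calc avg (Om D) (fun g => xo T u m g ^ 4) ≤ avg (Om D) (fun g => sm T g ^ 4) := sm_pow D hT
      _ = avg (Om D) (fun h => |sm T h| ^ 4) := m3
      _ ≤ C * (Real.sqrt V0 + T.card) ^ 4 := m1
      _ ≤ C * (16 * V0 ^ 2) := mul_le_mul_of_nonneg_left m5 hC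
      _ = _ := by ring
  have q2 : V0 / 2 ≤ avg (Om D) (fun g => xo T u m g ^ 2) := by
    have := sm_sq D hT
    rw [← hV] at this
    linarith
  have hi := interp (Om D) (xo T u m)
  have habs : avg (Om D) (fun g => |xo T u m g|) ≤ avg (Om D) (ab T u m) := by
    unfold avg
    exact div_le_div_of_nonneg_right (Finset.sum_le_sum fun g _ => abs_xo_le T u m g) (Nat.cast_nonneg _)
  have habs0 : 0 ≤ avg (Om D) (fun g => |xo T u m g|) := by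
    unfold avg
    exact div_nonneg (Finset.sum_nonneg fun g _ => abs_nonneg _) (Nat.cast_nonneg _)
  have hsq : avg (Om D) (fun g => |xo T u m g|) ^ 2 ≤ avg (Om D) (ab T u m) ^ 2 := pow_le_pow_left₀ habs0 habs 2
  have hmain : (V0 / 2) ^ 3 ≤ avg (Om D) (ab T u m) ^ 2 * (16 * C * V0 ^ 2) := by
    calc (V0 / 2) ^ 3 ≤ avg (Om D) (fun g => xo T u m g ^ 2) ^ 3 := pow_le_pow_left₀ (by positivity) q2 3
      _ ≤ avg (Om D) (fun g => |xo T u m g|) ^ 2 * avg (Om D) (fun g => xo T u m g ^ 4) := hi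
      _ ≤ avg (Om D) (fun g => |xo T u m g|) ^ 2 * (16 * C * V0 ^ 2) :=
        mul_le_mul_of_nonneg_left q4 (sq_nonneg _)
      _ ≤ _ := mul_le_mul_of_nonneg_right hsq (by positivity)
  rcases hV0.eq_or_lt with h | h
  · rw [← h, mul_zero]
    exact sq_nonneg _
  · have h5 : V0 ^ 2 * V0 ≤ V0 ^ 2 * (128 * C * avg (Om D) (ab T u m) ^ 2) := by
      nlinarith [hmain]
    have h6 : V0 ≤ 128 * C * avg (Om D) (ab T u m) ^ 2 := le_of_mul_le_mul_left h5 (by positivity)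
    rw [one_div, inv_mul_le_iff₀ (by positivity)]
    nlinarith [sq_nonneg (avg (Om D) (ab T u m))]

end CV
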