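import Pool.Agent.Helper75.CV.Mi
import Pool.Agent.Helper75.CV.Mo
import Pool.Agent.Helper75.CV.In

/-!
# Project DV, block COV (F7a): lower bound of the absolute sums of the outer clusters
-/

open Finset RP4

namespace CV

open DV

open Classical in
/-- the even sites of the square -/
noncomputable def Te (u : V) (n : ℕ) : Finset V := (KP.Box u n).filter fun z => Even (par z)

lemma mem_Te {u z : V} {n : ℕ} : z ∈ Te u n ↔ z ∈ Sq u n ∧ Even (par z) := by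
  unfold Te
  rw [Finset.mem_filter, KP.mem_Box]
  rfl

lemma Te_sub (u : V) (n : ℕ) : (Te u n : Set V) ⊆ Sq u n := fun _ hz => (mem_Te.1 (Finset.mem_coe.1 hz)).1

lemma card_Te {u : V} {n : ℕ} (hn : 1 ≤ n) : ((Te u n).card : ℝ) ≤ 9 * (n : ℝ) ^ 2 := by
  classical
  have h1 : (Te u n).card ≤ (KP.Box u n).card := Finset.card_filter_le _ _
  have h2 : (KP.Box u n).card = (2 * n + 1) * (2 * n + 1) := by
    unfold KP.Box
    rw [Finset.card_product, Int.card_Icc, Int.card_Icc]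
    congr 1 <;> omega
  have h3 : (((2 * n + 1) * (2 * n + 1) : ℕ) : ℝ) ≤ 9 * (n : ℝ) ^ 2 := by
    have h4 : (1 : ℝ) ≤ n := by exact_mod_cast hn
    push_cast
    nlinarith
  rw [h2] at h1
  exact le_trans (by exact_mod_cast h1) h3

/-- **F7a** -/
theorem ab_kpd : ∃ c : ℝ, 0 < c ∧ ∀ κ : ℕ, 1 ≤ κ → ∃ m₀ : ℕ, κ ≤ m₀ ∧ ∀ m : ℕ, m₀ ≤ m → ∃ s₀ : ℕ, 1 ≤ s₀ ∧
    ∀ n : ℕ, s₀ ≤ n → ∀ D : Finset V, BdryPar D 0 → ∀ u : V, Even (par u) →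
      Sq u ((4 ^ (m + 1) * n : ℕ) : ℤ) ⊆ (D : Set V) →
      c * ((m : ℝ) * (n : ℝ) ^ 4) ≤ avg (Om D) (ab (Te u n) u ((κ * n : ℕ) : ℤ)) ^ 2 := by
  obtain ⟨c₁, hc₁, h1⟩ := KD.kpd_at
  obtain ⟨C, hC, h2⟩ := xi_sq
  obtain ⟨c₂, hc₂, h3⟩ := ab_low
  refine ⟨c₂ * c₁, by positivity, fun κ hκ => ?_⟩
  refine ⟨κ + ⌈81 / c₁⌉₊ + ⌈18 * C * (κ : ℝ) ^ 2 / c₁⌉₊, by omega, fun m hm => ?_⟩
  have e1 : 81 ≤ c₁ * m := by
    have h4 : 81 / c₁ ≤ m := (Nat.le_ceil _).trans (by exact_mod_cast (by omega : ⌈81 / c₁⌉₊ ≤ m))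
    rw [div_le_iff₀ hc₁] at h4
    linarith
  have e2 : 18 * C * (κ : ℝ) ^ 2 ≤ c₁ * m := by
    have h4 : 18 * C * (κ : ℝ) ^ 2 / c₁ ≤ m :=
      (Nat.le_ceil _).trans (by exact_mod_cast (by omega : ⌈18 * C * (κ : ℝ) ^ 2 / c₁⌉₊ ≤ m))
    rw [div_le_iff₀ hc₁] at h4
    linarith
  obtain ⟨s₀, hs₀, h4⟩ := h1 m (by omega)
  refine ⟨s₀, hs₀, fun n hn D hD u hu hDu => ?_⟩
  have hn1 : 1 ≤ n := hs₀.trans hn
  have hnR : (1 : ℝ) ≤ n := by exact_mod_cast hn1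
  have hκm : κ * n ≤ 4 ^ (m + 1) * n := by
    refine Nat.mul_le_mul_right _ ?_
    have h5 : m + 1 < 4 ^ (m + 1) := Nat.lt_pow_self (by norm_num)
    omega
  have hnκ : n ≤ κ * n := Nat.le_mul_of_pos_left n (by omega)
  have hV : c₁ * m * (n : ℝ) ^ 4 ≤ avg (Om D) (fun g => sm (Te u n) g ^ 2) := by
    have h5 := h4 n hn D hD u hu (fun v hv => by
      rw [KP.mem_Box] at hv
      have h6 : v ∈ Sq u ((4 ^ (m + 1) * n : ℕ) : ℤ) := hv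
      exact Finset.mem_coe.1 (hDu h6)) (Te u n) (fun _ => 1) (fun _ _ => zero_le_one)
      (fun z hz hz' => ⟨mem_Te.2 ⟨by rw [KP.mem_Box] at hz; exact hz, hz'⟩, le_rfl⟩)
    have h6 : (fun h : V → ℤ => (∑ z ∈ Te u n, (1 : ℝ) * (h z : ℝ)) ^ 2) = fun g => sm (Te u n) g ^ 2 := by
      funext g
      unfold sm
      simp only [one_mul]
    rw [h6] at h5
    exact h5
  have hT := card_Te (u := u) hn1
  have hT0 : (0 : ℝ) ≤ (Te u n).card := Nat.cast_nonneg _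
  have hSub : (Te u n : Set V) ⊆ Sq u ((κ * n : ℕ) : ℤ) :=
    (Te_sub u n).trans (Sq_mono (by exact_mod_cast hnκ))
  have hx := h2 D hD u (κ * n) (hn1.trans hnκ) ((Sq_mono (by exact_mod_cast hκm)).trans hDu) (Te u n) hSub
  have n4 : (0 : ℝ) ≤ (n : ℝ) ^ 4 := by positivity
  have g1 : ((Te u n).card : ℝ) ^ 2 ≤ avg (Om D) (fun g => sm (Te u n) g ^ 2) := by
    calc ((Te u n).card : ℝ) ^ 2 ≤ (9 * (n : ℝ) ^ 2) ^ 2 := pow_le_pow_left₀ hT0 hT 2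
      _ = 81 * (n : ℝ) ^ 4 := by ring
      _ ≤ c₁ * m * (n : ℝ) ^ 4 := mul_le_mul_of_nonneg_right e1 n4
      _ ≤ _ := hV
  have g2 : 2 * avg (Om D) (fun g => xi (Te u n) u ((κ * n : ℕ) : ℤ) g ^ 2) ≤
      avg (Om D) (fun g => sm (Te u n) g ^ 2) := by
    calc 2 * avg (Om D) (fun g => xi (Te u n) u ((κ * n : ℕ) : ℤ) g ^ 2)
        ≤ 2 * (C * (((κ * n : ℕ) : ℝ)) ^ 2 * (Te u n).card) := mul_le_mul_of_nonneg_left hx (by norm_num)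
      _ ≤ 2 * (C * (((κ * n : ℕ) : ℝ)) ^ 2 * (9 * (n : ℝ) ^ 2)) := by
          refine mul_le_mul_of_nonneg_left ?_ (by norm_num)
          exact mul_le_mul_of_nonneg_left hT (by positivity)
      _ = (18 * C * (κ : ℝ) ^ 2) * (n : ℝ) ^ 4 := by
          push_cast
          ring
      _ ≤ c₁ * m * (n : ℝ) ^ 4 := mul_le_mul_of_nonneg_right e2 n4
      _ ≤ _ := hV
  have h5 := h3 D hD u _ (Te u n) hSub g1 g2
  calc c₂ * c₁ * ((m : ℝ) * (n : ℝ) ^ 4) = c₂ * (c₁ * m * (n : ℝ) ^ 4) := by ring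
    _ ≤ c₂ * avg (Om D) (fun g => sm (Te u n) g ^ 2) := mul_le_mul_of_nonneg_left hV hc₂.le
    _ ≤ _ := h5

end CV
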