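import Pool.Agent.Helper75.CV.Ke
import Pool.Agent.Helper75.CV.Lo

/-!
# Project DV, block COV (F7): the theorem on the lattice
-/

open Finset RP4

namespace CV

open DV

lemma LP_mono {c : ℝ} {K K' n0 n0' : ℤ} (h : LP c K n0) (hK : K ≤ K') (hn : n0 ≤ n0') (hn0 : 0 ≤ n0') :
    LP c K' n0' := by
  intro n hn' x D p Z h1 h2 h3 h4
  have hn1 : 0 ≤ n := hn0.trans hn'
  have hKn : K * n ≤ K' * n := mul_le_mul_of_nonneg_right hK hn1
  refine (h n (hn.trans hn') x D p Z h1 h2 h3 fun v hv hv' => h4 v (Sq_mono hKn hv) hv').trans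
    (pr_mono fun g _ hg => ?_)
  rintro ⟨u, hu, v, hv, hc⟩
  exact hg ⟨u, hu, v, fun h5 => hv (Sq_mono (by omega) h5), hc⟩

/-- LOOP for zero boundary values -/
lemma lp_Oc {c : ℝ} {K n0 : ℤ} (h : LP c K n0) {n : ℤ} (hn : n0 ≤ n) {D : Finset V} (hD : BdryPar D 0) {u : V}
    (hs : Sq u (K * n + 1) ⊆ (D : Set V)) : c ≤ pr (Om D) (Oc u n (K * n - 1)) := by
  refine h n hn u D 0 (bdry D) le_rfl (bdry_subset D) (fun v hv => ?_) fun v hv _ => ⟨?_, fun h1 => ?_⟩
  · have h1 := hD v hv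
    rw [Int.even_iff] at h1 ⊢
    omega
  · exact Finset.mem_coe.1 (hs (Sq_mono (by omega) hv))
  · obtain ⟨_, w, hw, hwD⟩ := mem_bdry.1 h1
    apply hwD
    apply Finset.mem_coe.1
    apply hs
    obtain ⟨h2, h3⟩ := adj_kng hw
    obtain ⟨h4, h5⟩ := hv
    rw [abs_le] at h2 h3 h4 h5
    exact ⟨abs_le.2 ⟨by omega, by omega⟩, abs_le.2 ⟨by omega, by omega⟩⟩

lemma pr_bex_le {ι : Type*} (A : Finset (V → ℤ)) (I : Finset ι) (E : ι → (V → ℤ) → Prop) :
    pr A (fun g => ∃ i ∈ I, E i g) ≤ ∑ i ∈ I, pr A (E i) := by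
  classical
  induction I using Finset.induction_on with
  | empty =>
    rw [Finset.sum_empty, pr_eq]
    have h1 : (A.filter fun g => ∃ i ∈ (∅ : Finset ι), E i g) = ∅ := by
      ext g
      simp
    rw [h1]
    simp
  | @insert a s ha ih =>
    rw [Finset.sum_insert ha]
    refine le_trans (pr_mono fun g _ hg => ?_) ((pr_or_le A (E a) fun g => ∃ i ∈ s, E i g).trans
      (add_le_add le_rfl ih))
    obtain ⟨i, hi, hE⟩ := hg
    rcases Finset.mem_insert.1 hi with rfl | hi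
    · exact Or.inl hE
    · exact Or.inr ⟨i, hi, hE⟩

/-- the covariance of two sums is at most the number of terms of the first one times a constant times the square of
the size of the domain -/
lemma cov_le : ∃ C : ℝ, 0 ≤ C ∧ ∀ (R : ℕ), 1 ≤ R → ∀ D : Finset V, BdryPar D 0 →
    (∀ u ∈ D, ∀ v ∈ D, |u.1 - v.1| ≤ R ∧ |u.2 - v.2| ≤ R) → ∀ T S : Finset V, T ⊆ D → S ⊆ D →
      avg (Om D) (fun g => sm T g * sm S g) ≤ T.card * (C * (R : ℝ) ^ 2) := by
  obtain ⟨C, hC, h⟩ := MD.col_sum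
  refine ⟨C, hC, fun R hR D hD hRD T S hT hS => ?_⟩
  have h1 : avg (Om D) (fun g => sm T g * sm S g) = ∑ x ∈ T, ∑ y ∈ S, MD.cv D y x := by
    have e : ∀ g : V → ℤ, sm T g * sm S g = ∑ x ∈ T, ∑ y ∈ S, (g y : ℝ) * g x := fun g => by
      unfold sm
      rw [Finset.sum_mul_sum]
      exact Finset.sum_congr rfl fun x _ => Finset.sum_congr rfl fun y _ => mul_comm _ _
    unfold MD.cv avg
    rw [Finset.sum_congr rfl fun g _ => e g, Finset.sum_comm, Finset.sum_div]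
    refine Finset.sum_congr rfl fun x _ => ?_
    rw [Finset.sum_comm, Finset.sum_div]
  rw [h1]
  calc ∑ x ∈ T, ∑ y ∈ S, MD.cv D y x ≤ ∑ x ∈ T, C * (R : ℝ) ^ 2 := by
        refine Finset.sum_le_sum fun x hx => ?_
        refine le_trans ?_ (h R hR D hD hRD x (hT hx))
        exact Finset.sum_le_sum_of_subset_of_nonneg hS fun y _ _ => MD.cv_nonneg D y x
    _ = T.card * (C * (R : ℝ) ^ 2) := by rw [Finset.sum_const, nsmul_eq_mul]

/-- a point of the sphere lies in a square of the net -/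
lemma net {u y : V} {J N : ℤ} (hJ : 0 ≤ J) (hN : 0 < N) (hy : y ∈ Sq u (J * N))
    (hy' : |y.1 - u.1| = J * N ∨ |y.2 - u.2| = J * N) :
    ∃ i ∈ (Finset.Icc (-J) J ×ˢ Finset.Icc (-J) J).filter (fun i : ℤ × ℤ => |i.1| = J ∨ |i.2| = J),
      y ∈ Sq (u.1 + N * i.1, u.2 + N * i.2) N := by
  have key : ∀ t : ℤ, |t| ≤ J * N → ∃ i, -J ≤ i ∧ i ≤ J ∧ |t - N * i| ≤ N ∧ (|t| = J * N → |i| = J) := by
    intro t ht
    rw [abs_le] at ht
    refine ⟨t / N, ?_, ?_, ?_, ?_⟩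
    · rw [Int.le_ediv_iff_mul_le hN]
      linarith
    · have h1 : t / N ≤ (J * N) / N := Int.ediv_le_ediv hN ht.2
      rwa [Int.mul_ediv_cancel _ hN.ne'] at h1
    · have h1 := Int.emod_add_mul_ediv t N
      have h2 := Int.emod_nonneg t hN.ne'
      have h3 := Int.emod_lt_of_pos t hN
      have h4 : t - N * (t / N) = t % N := by linarith
      rw [h4, abs_of_nonneg h2]
      exact h3.le
    · intro h1
      rcases abs_choice t with h2 | h2
      · have h3 : t = J * N := by rw [← h2, h1]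
        rw [h3, Int.mul_ediv_cancel _ hN.ne', abs_of_nonneg hJ]
      · have h3 : t = -J * N := by
          have : -t = J * N := by rw [← h2, h1]
          linarith
        rw [h3, Int.mul_ediv_cancel _ hN.ne', abs_neg, abs_of_nonneg hJ]
  obtain ⟨i, i1, i2, i3, i4⟩ := key (y.1 - u.1) hy.1
  obtain ⟨j, j1, j2, j3, j4⟩ := key (y.2 - u.2) hy.2
  refine ⟨(i, j), ?_, ?_, ?_⟩
  · rw [Finset.mem_filter, Finset.mem_product, Finset.mem_Icc, Finset.mem_Icc]
    exact ⟨⟨⟨i1, i2⟩, j1, j2⟩, hy'.imp i4 j4⟩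
  · simp only
    rw [← sub_sub]
    exact i3
  · simp only
    rw [← sub_sub]
    exact j3

/-- two squares with distant centres -/
lemma sq_disj {u v : V} {n k M : ℤ} (h : |v.1 - u.1| = M ∨ |v.2 - u.2| = M) (hnk : n + k < M) :
    Disjoint (Sq v n) (Sq u k) := by
  rw [Set.disjoint_left]
  rintro w ⟨h1, h2⟩ ⟨h3, h4⟩
  rw [abs_le] at h1 h2 h3 h4
  rcases h with h | h <;> rcases abs_cases (v.1 - u.1) with h5 | h5 <;> rcases abs_cases (v.2 - u.2) with h6 | h6 <;>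
    omega

end CV
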