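import Pool.Agent.Helper75.CV.Lt

/-!
# Project DV, block COV (F7b): the theorem on the lattice
-/

open Finset RP4

namespace CV

open DV

/-- one pair of squares -/
theorem pair_le {c c₃ C : ℝ} {K : ℕ} {n0 : ℤ} (hc : 0 < c) (hK : 2 ≤ K) (hn0 : 0 ≤ n0) (hLP : LP c K n0)
    (hc₃ : 0 < c₃) {κ : ℕ} (hκ : κ = 8 * K + 1) {m₀ m : ℕ} (hm₀ : κ ≤ m₀) (hm : m₀ ≤ m) {J : ℕ} (hJ : J = 4 ^ (m₀ + 1))
    {n N : ℕ} (hn1 : 1 ≤ n) (hnn : n0 ≤ n) (hN : N = 4 ^ m * n) {u v : V} (hu : Even (par u)) (hv : Even (par v))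
    {D : Finset V} (hD : BdryPar D 0) (hDu : Sq u ((2 * (J * N) : ℕ) : ℤ) ⊆ (D : Set V))
    (huv : v ∈ Sq u ((J * N : ℕ) : ℤ)) (huv' : |v.1 - u.1| = ((J * N : ℕ) : ℤ) ∨ |v.2 - u.2| = ((J * N : ℕ) : ℤ))
    (h1 : c₃ * ((m : ℝ) * (n : ℝ) ^ 4) ≤ avg (Om D) (ab (Te u n) u ((κ * n : ℕ) : ℤ)) ^ 2)
    (h2 : c₃ * ((m₀ : ℝ) * (N : ℝ) ^ 4) ≤ avg (Om D) (ab (Te v N) v ((κ * N : ℕ) : ℤ)) ^ 2)
    {Λ : ℕ} (hC : 0 ≤ C) (hcov : avg (Om D) (fun g => sm (Te u n) g * sm (Te v N) g) ≤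
      (Te u n).card * (C * (((2 * Λ + 1) * (J * N) : ℕ) : ℝ) ^ 2))
    {a b : ℤ} (hb : Even b) (hb0 : 0 ≤ b) (hba : b ≤ a) :
    pr (Ab D b) (JnNz (Sq u n) (Sq v N)) ≤
      (9 * (C * ((2 * Λ + 1) * J) ^ 2) + 81 * (a : ℝ) ^ 2) / (c ^ 2 * c₃ * Real.sqrt m) := by
  have hκ17 : 17 ≤ κ := by omega
  have hJκ : κ + 2 ≤ J := by
    have h5 : m₀ + 1 < 4 ^ (m₀ + 1) := Nat.lt_pow_self (by norm_num)
    omega
  have hJ4 : 4 ≤ J := by omega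
  have hmpos : 1 ≤ m := by omega
  have hnN : n ≤ N := by
    rw [hN]
    exact Nat.le_mul_of_pos_left n (by positivity)
  have hN1 : 1 ≤ N := hn1.trans hnN
  have hJN : (κ + 2) * N ≤ J * N := Nat.mul_le_mul_right _ hJκ
  have hκn : κ * n ≤ κ * N := Nat.mul_le_mul_left _ hnN
  have e3 : (κ + 2) * N = κ * N + 2 * N := by ring
  have hKn : K * n ≤ K * N := Nat.mul_le_mul_left _ hnN
  have eK : ∀ n : ℕ, κ * n = 8 * (K * n) + n := fun n => by rw [hκ]; ring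
  have ezK : ∀ n : ℕ, ((K * (2 * n + 2) : ℕ) : ℤ) = 2 * ((K * n : ℕ) : ℤ) + 2 * (K : ℤ) := fun n => by
    push_cast
    ring
  have ezK' : ∀ n : ℕ, (K : ℤ) * (2 * (n : ℤ) + 2) = ((K * (2 * n + 2) : ℕ) : ℤ) := fun n => by
    push_cast
    ring
  have hKle : ∀ n : ℕ, 1 ≤ n → K ≤ K * n := fun n hn => Nat.le_mul_of_pos_right K (by omega)
  have h2n : ∀ n : ℕ, 1 ≤ n → 2 * n ≤ K * n := fun n _ => Nat.mul_le_mul_right _ hK
  have k1 := hKle n hn1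
  have k2 := hKle N hN1
  have k3 := h2n n hn1
  have k4 := h2n N hN1
  have k5 := eK n
  have k6 := eK N
  have k7 := ezK n
  have k8 := ezK N
  have k9 := ezK' n
  have k10 := ezK' N
  have hDv : Sq v ((J * N : ℕ) : ℤ) ⊆ (D : Set V) := by
    intro w hw
    apply hDu
    obtain ⟨a1, a2⟩ := hw
    obtain ⟨a3, a4⟩ := huv
    rw [abs_le] at a1 a2 a3 a4
    exact ⟨abs_le.2 ⟨by push_cast; push_cast at a1 a2 a3 a4; omega, by push_cast; push_cast at a1 a2 a3 a4; omega⟩,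
      abs_le.2 ⟨by push_cast; push_cast at a1 a2 a3 a4; omega, by push_cast; push_cast at a1 a2 a3 a4; omega⟩⟩
  have hDu' : Sq u ((J * N : ℕ) : ℤ) ⊆ (D : Set V) := (Sq_mono (by push_cast; omega)).trans hDu
  -- LOOP
  have o1 : c ≤ pr (Om D) (Oc u (2 * (n : ℤ) + 2) (K * (2 * (n : ℤ) + 2) - 1)) :=
    lp_Oc hLP (by omega) hD ((Sq_mono (by rw [k9]; omega)).trans hDu')
  have o2 : c ≤ pr (Om D) (Oc v (2 * (N : ℤ) + 2) (K * (2 * (N : ℤ) + 2) - 1)) :=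
    lp_Oc hLP (by omega) hD ((Sq_mono (by rw [k10]; omega)).trans hDv)
  have hTD : Te u n ⊆ D := fun z hz => Finset.mem_coe.1 (hDu' (Sq_mono (by omega) (mem_Te.1 hz).1))
  have hSD : Te v N ⊆ D := fun z hz => Finset.mem_coe.1 (hDv (Sq_mono (by omega) (mem_Te.1 hz).1))
  have hsym : |u.1 - v.1| = ((J * N : ℕ) : ℤ) ∨ |u.2 - v.2| = ((J * N : ℕ) : ℤ) := by
    rw [abs_sub_comm u.1, abs_sub_comm u.2]
    exact huv'
  have key := key_ineq (D := D) hD hb hb0 (u := u) (v := v) (n := n) (n₁ := 2 * (n : ℤ) + 2)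
    (m := K * (2 * (n : ℤ) + 2) - 1) (mo := ((κ * n : ℕ) : ℤ)) (k := N) (k₁ := 2 * (N : ℤ) + 2)
    (l := K * (2 * (N : ℤ) + 2) - 1) (lo := ((κ * N : ℕ) : ℤ)) (by omega) le_rfl (by rw [k9]; omega)
    (by rw [k9]; omega) ((Sq_mono (by rw [k9]; omega)).trans hDu') (by omega) le_rfl (by rw [k10]; omega)
    (by rw [k10]; omega) ((Sq_mono (by rw [k10]; omega)).trans hDv) (sq_disj huv' (by omega))
    (sq_disj hsym (by omega)) (Te_sub u n) (Te_sub v N) hTD hSD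
  set P := pr (Ab D b) (JnNz (Sq u n) (Sq v N)) with hP
  have hP0 : 0 ≤ P := pr_nonneg _ _
  set A1 := avg (Om D) (ab (Te u n) u ((κ * n : ℕ) : ℤ)) with hA1
  set A2 := avg (Om D) (ab (Te v N) v ((κ * N : ℕ) : ℤ)) with hA2
  have avn : ∀ (T : Finset V) (u : V) (mo : ℤ), 0 ≤ avg (Om D) (ab T u mo) := fun T u mo =>
    div_nonneg (Finset.sum_nonneg fun g _ => ab_nonneg T u mo g) (Nat.cast_nonneg _)
  have a1 : 0 ≤ A1 := avn _ _ _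
  have a2 : 0 ≤ A2 := avn _ _ _
  have hnR : (1 : ℝ) ≤ n := by exact_mod_cast hn1
  have hNR : (1 : ℝ) ≤ N := by exact_mod_cast hN1
  have hsm : 0 < Real.sqrt m := Real.sqrt_pos.2 (by exact_mod_cast hmpos)
  -- lower bound of the product
  have h2' : c₃ * (N : ℝ) ^ 4 ≤ A2 ^ 2 := by
    refine le_trans (mul_le_mul_of_nonneg_left ?_ hc₃.le) h2
    have h5 : (1 : ℝ) ≤ m₀ := by exact_mod_cast (by omega : 1 ≤ m₀)
    nlinarith [pow_pos (lt_of_lt_of_le one_pos hNR) 4]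
  have a3 : c₃ * Real.sqrt m * ((n : ℝ) ^ 2 * (N : ℝ) ^ 2) ≤ A1 * A2 := by
    refine le_of_sq_le_sq ?_ (mul_nonneg a1 a2)
    calc (c₃ * Real.sqrt m * ((n : ℝ) ^ 2 * (N : ℝ) ^ 2)) ^ 2
        = (c₃ * ((Real.sqrt m) ^ 2 * (n : ℝ) ^ 4)) * (c₃ * (N : ℝ) ^ 4) := by ring
      _ = (c₃ * ((m : ℝ) * (n : ℝ) ^ 4)) * (c₃ * (N : ℝ) ^ 4) := by
          rw [Real.sq_sqrt (Nat.cast_nonneg m)]
      _ ≤ A1 ^ 2 * A2 ^ 2 := mul_le_mul h1 h2' (by positivity) (by positivity)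
      _ = (A1 * A2) ^ 2 := by ring
  have a4 : P * (c * c * (c₃ * Real.sqrt m * ((n : ℝ) ^ 2 * (N : ℝ) ^ 2))) ≤
      P * (pr (Om D) (Oc u (2 * (n : ℤ) + 2) (K * (2 * (n : ℤ) + 2) - 1)) *
        pr (Om D) (Oc v (2 * (N : ℤ) + 2) (K * (2 * (N : ℤ) + 2) - 1)) * (A1 * A2)) := by
    refine mul_le_mul_of_nonneg_left ?_ hP0
    exact mul_le_mul (mul_le_mul o1 o2 hc.le (pr_nonneg _ _)) a3 (by positivity)
      (mul_nonneg (pr_nonneg _ _) (pr_nonneg _ _))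
  have t1 := card_Te (u := u) hn1
  have t2 := card_Te (u := v) hN1
  have t10 : (0 : ℝ) ≤ (Te u n).card := Nat.cast_nonneg _
  have t20 : (0 : ℝ) ≤ (Te v N).card := Nat.cast_nonneg _
  have hb2 : (b : ℝ) ^ 2 ≤ (a : ℝ) ^ 2 := by
    have h5 : (0 : ℝ) ≤ b := by exact_mod_cast hb0
    have h6 : (b : ℝ) ≤ a := by exact_mod_cast hba
    exact pow_le_pow_left₀ h5 h6 2
  have a5 : avg (Om D) (fun g => sm (Te u n) g * sm (Te v N) g) + (b : ℝ) ^ 2 * ((Te u n).card * (Te v N).card) ≤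
      (9 * (C * ((2 * Λ + 1) * J) ^ 2) + 81 * (a : ℝ) ^ 2) * ((n : ℝ) ^ 2 * (N : ℝ) ^ 2) := by
    have q1 : ((Te u n).card : ℝ) * (C * (((2 * Λ + 1) * (J * N) : ℕ) : ℝ) ^ 2) ≤
        9 * (n : ℝ) ^ 2 * (C * (((2 * Λ + 1) * (J * N) : ℕ) : ℝ) ^ 2) :=
      mul_le_mul_of_nonneg_right t1 (by positivity)
    have q2 : (b : ℝ) ^ 2 * ((Te u n).card * (Te v N).card) ≤ (a : ℝ) ^ 2 * ((9 * (n : ℝ) ^ 2) * (9 * (N : ℝ) ^ 2)) :=
      mul_le_mul hb2 (mul_le_mul t1 t2 t20 (by positivity)) (mul_nonneg t10 t20) (sq_nonneg _)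
    have q3 : 9 * (n : ℝ) ^ 2 * (C * (((2 * Λ + 1) * (J * N) : ℕ) : ℝ) ^ 2) +
        (a : ℝ) ^ 2 * ((9 * (n : ℝ) ^ 2) * (9 * (N : ℝ) ^ 2)) =
        (9 * (C * ((2 * Λ + 1) * J) ^ 2) + 81 * (a : ℝ) ^ 2) * ((n : ℝ) ^ 2 * (N : ℝ) ^ 2) := by
      push_cast
      ring
    linarith
  have hX : (0 : ℝ) < (n : ℝ) ^ 2 * (N : ℝ) ^ 2 := by positivity
  have a6 : P * (c ^ 2 * c₃ * Real.sqrt m) * ((n : ℝ) ^ 2 * (N : ℝ) ^ 2) ≤
      (9 * (C * ((2 * Λ + 1) * J) ^ 2) + 81 * (a : ℝ) ^ 2) * ((n : ℝ) ^ 2 * (N : ℝ) ^ 2) := by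
    calc P * (c ^ 2 * c₃ * Real.sqrt m) * ((n : ℝ) ^ 2 * (N : ℝ) ^ 2)
        = P * (c * c * (c₃ * Real.sqrt m * ((n : ℝ) ^ 2 * (N : ℝ) ^ 2))) := by ring
      _ ≤ _ := a4.trans (key.trans a5)
  have a7 := le_of_mul_le_mul_right a6 hX
  rw [le_div_iff₀ (by positivity)]
  exact a7

/-- **F7.** In a flat domain with constant boundary value between `0` and `a` the square of radius `n` is with probability close
to one not joined by nonzero sites to the sphere of radius `J * 4 ^ m * n` -/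
theorem lattice {c : ℝ} {K n0 : ℤ} (hc : 0 < c) (hLP : LP c K n0) : ∃ J : ℕ, 1 ≤ J ∧
    ∀ (Λ : ℕ) (a : ℤ) (ε : ℝ), 0 < ε → ∃ m N₀ : ℕ, ∀ n : ℕ, N₀ ≤ n → ∀ u : V, Even (par u) →
      ∀ D : Finset V, BdryPar D 0 → Sq u ((2 * (J * (4 ^ m * n)) : ℕ) : ℤ) ⊆ (D : Set V) →
      (D : Set V) ⊆ Sq u ((Λ * (J * (4 ^ m * n)) : ℕ) : ℤ) → ∀ b : ℤ, Even b → 0 ≤ b → b ≤ a →
        pr (Ab D b) (fun g => ∃ x ∈ Sq u n, ∃ y, y ∉ Sq u ((J * (4 ^ m * n) : ℕ) : ℤ) ∧ Con (nz g) x y) ≤ ε := by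
  -- normalisation of LOOP
  obtain ⟨K', hK'⟩ : ∃ K' : ℕ, (K' : ℤ) = max K 2 := ⟨(max K 2).toNat, Int.toNat_of_nonneg (by omega)⟩
  have hK2 : 2 ≤ K' := by omega
  have hLP' : LP c K' (max n0 0) := LP_mono hLP (by omega) (le_max_left _ _) (le_max_right _ _)
  obtain ⟨c₃, hc₃, hlow⟩ := ab_kpd
  obtain ⟨C, hC, hcov⟩ := cov_le
  obtain ⟨κ, hκ⟩ : ∃ κ, κ = 8 * K' + 1 := ⟨_, rfl⟩
  obtain ⟨m₀, hm₀, hlow'⟩ := hlow κ (by omega)
  obtain ⟨J, hJ⟩ : ∃ J, J = 4 ^ (m₀ + 1) := ⟨_, rfl⟩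
  have hJ1 : 1 ≤ J := by
    rw [hJ]
    exact Nat.one_le_pow _ _ (by norm_num)
  have hJ4 : 4 ≤ J := by
    rw [hJ, pow_succ]
    have : 1 ≤ 4 ^ m₀ := Nat.one_le_pow _ _ (by norm_num)
    omega
  refine ⟨J, hJ1, fun Λ a ε hε => ?_⟩
  set B : ℝ := 9 * (C * ((2 * Λ + 1) * J) ^ 2) + 81 * (a : ℝ) ^ 2 with hB
  have hB0 : 0 ≤ B := by positivity
  set I := (Finset.Icc (-(J : ℤ)) J ×ˢ Finset.Icc (-(J : ℤ)) J).filter
    (fun i : ℤ × ℤ => |i.1| = J ∨ |i.2| = J) with hI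
  set Q : ℝ := I.card * B / (c ^ 2 * c₃ * ε) with hQ
  have hQ0 : 0 ≤ Q := by positivity
  obtain ⟨m, hm, hmQ⟩ : ∃ m : ℕ, m₀ ≤ m ∧ Q ≤ Real.sqrt m := by
    refine ⟨m₀ + ⌈Q ^ 2⌉₊, by omega, ?_⟩
    rw [Real.le_sqrt hQ0 (Nat.cast_nonneg _)]
    refine (Nat.le_ceil _).trans ?_
    exact_mod_cast Nat.le_add_left _ _
  obtain ⟨s₁, hs₁, hl₁⟩ := hlow' m hm
  obtain ⟨s₂, hs₂, hl₂⟩ := hlow' m₀ le_rfl
  refine ⟨m, s₁ + s₂ + n0.natAbs + 1, fun n hn u hu D hD hDu hDL b hb hb0 hba => ?_⟩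
  obtain ⟨N, hN⟩ : ∃ N, N = 4 ^ m * n := ⟨_, rfl⟩
  rw [← hN] at hDu hDL ⊢
  have hnN : n ≤ N := by
    rw [hN]
    exact Nat.le_mul_of_pos_left n (by positivity)
  have hm1 : 1 ≤ m := by omega
  have hNe : Even (N : ℤ) := by
    rw [hN]
    obtain ⟨q, rfl⟩ := Nat.exists_eq_add_of_le hm1
    refine ⟨2 * 4 ^ q * n, ?_⟩
    push_cast
    rw [pow_add]
    ring
  have hDd : ∀ x ∈ D, ∀ y ∈ D, |x.1 - y.1| ≤ (((2 * Λ + 1) * (J * N) : ℕ) : ℤ) ∧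
      |x.2 - y.2| ≤ (((2 * Λ + 1) * (J * N) : ℕ) : ℤ) := by
    intro x hx y hy
    obtain ⟨x1, x2⟩ := hDL (Finset.mem_coe.2 hx)
    obtain ⟨y1, y2⟩ := hDL (Finset.mem_coe.2 hy)
    have e : (((2 * Λ + 1) * (J * N) : ℕ) : ℤ) = 2 * ((Λ * (J * N) : ℕ) : ℤ) + ((J * N : ℕ) : ℤ) := by
      push_cast
      ring
    have e0 : (0 : ℤ) ≤ ((J * N : ℕ) : ℤ) := Int.natCast_nonneg _
    rw [e]
    rw [abs_le] at x1 x2 y1 y2
    exact ⟨abs_le.2 ⟨by omega, by omega⟩, abs_le.2 ⟨by omega, by omega⟩⟩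
  have hR1 : 1 ≤ (2 * Λ + 1) * (J * N) := Nat.one_le_iff_ne_zero.2 (by
    have : 0 < N := by omega
    positivity)
  have hDu4 : Sq u ((4 ^ (m + 1) * n : ℕ) : ℤ) ⊆ (D : Set V) := by
    refine (Sq_mono ?_).trans hDu
    have e : 4 ^ (m + 1) * n = 4 * N := by
      rw [hN, pow_succ]
      ring
    have e' : 4 * N ≤ J * N := Nat.mul_le_mul_right _ hJ4
    rw [e]
    have : 4 * N ≤ 2 * (J * N) := by omega
    exact_mod_cast this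
  have hq : ∀ i ∈ I, pr (Ab D b) (JnNz (Sq u n) (Sq (u.1 + N * i.1, u.2 + N * i.2) N)) ≤
      B / (c ^ 2 * c₃ * Real.sqrt m) := by
    intro i hi
    rw [hI, Finset.mem_filter, Finset.mem_product, Finset.mem_Icc, Finset.mem_Icc] at hi
    obtain ⟨⟨⟨i1, i2⟩, j1, j2⟩, hij⟩ := hi
    obtain ⟨v, hv⟩ : ∃ v : V, v = (u.1 + N * i.1, u.2 + N * i.2) := ⟨_, rfl⟩
    rw [← hv]
    have v1 : v.1 - u.1 = N * i.1 := by rw [hv]; ring
    have v2 : v.2 - u.2 = N * i.2 := by rw [hv]; ring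
    have hvp : Even (par v) := by
      have e : par v = par u + N * (i.1 + i.2) := by
        have e1 : par v = v.1 + v.2 := rfl
        have e2 : par u = u.1 + u.2 := rfl
        rw [e1, e2]
        linarith
      rw [e]
      exact hu.add (hNe.mul_right _)
    have hN0 : (0 : ℤ) ≤ (N : ℤ) := Int.natCast_nonneg _
    have habs : ∀ t : ℤ, |(N : ℤ) * t| = |t| * N := fun t => by
      rw [abs_mul, abs_of_nonneg hN0]
      ring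
    have huv : v ∈ Sq u ((J * N : ℕ) : ℤ) := by
      constructor
      · rw [v1, habs]
        push_cast
        exact mul_le_mul_of_nonneg_right (abs_le.2 ⟨i1, i2⟩) hN0
      · rw [v2, habs]
        push_cast
        exact mul_le_mul_of_nonneg_right (abs_le.2 ⟨j1, j2⟩) hN0
    have huv' : |v.1 - u.1| = ((J * N : ℕ) : ℤ) ∨ |v.2 - u.2| = ((J * N : ℕ) : ℤ) := by
      rw [v1, v2, habs, habs]
      push_cast
      exact hij.imp (fun h => by rw [h]) fun h => by rw [h]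
    have hDv : Sq v ((4 ^ (m₀ + 1) * N : ℕ) : ℤ) ⊆ (D : Set V) := by
      rw [← hJ]
      intro w hw
      apply hDu
      obtain ⟨a1, a2⟩ := hw
      obtain ⟨a3, a4⟩ := huv
      rw [abs_le] at a1 a2 a3 a4
      have e : ((2 * (J * N) : ℕ) : ℤ) = 2 * ((J * N : ℕ) : ℤ) := by push_cast; ring
      rw [e]
      exact ⟨abs_le.2 ⟨by omega, by omega⟩, abs_le.2 ⟨by omega, by omega⟩⟩
    have hTD : Te u n ⊆ D := fun z hz => by
      refine Finset.mem_coe.1 (hDu (Sq_mono ?_ (mem_Te.1 hz).1))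
      have e' : 1 * N ≤ J * N := Nat.mul_le_mul_right _ hJ1
      push_cast
      have : (n : ℤ) ≤ N := by exact_mod_cast hnN
      have e2 : ((1 * N : ℕ) : ℤ) ≤ ((J * N : ℕ) : ℤ) := by exact_mod_cast e'
      push_cast at e2
      omega
    have hSD : Te v N ⊆ D := fun z hz => by
      refine Finset.mem_coe.1 (hDv (Sq_mono ?_ (mem_Te.1 hz).1))
      have e' : 1 * N ≤ 4 ^ (m₀ + 1) * N := Nat.mul_le_mul_right _ (Nat.one_le_pow _ _ (by norm_num))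
      rw [one_mul] at e'
      exact_mod_cast e'
    exact pair_le hc hK2 (le_max_right _ _) hLP' hc₃ hκ hm₀ hm hJ (by omega) (by omega) hN hu hvp hD
      hDu huv huv' (hl₁ n (by omega) D hD u hu hDu4) (hl₂ N (by omega) D hD v hvp hDv) (Λ := Λ) hC
      (hcov _ hR1 D hD hDd _ _ hTD hSD) hb hb0 hba
  have hsm : 0 < Real.sqrt m := Real.sqrt_pos.2 (by exact_mod_cast hm1)
  calc pr (Ab D b) (fun g => ∃ x ∈ Sq u n, ∃ y, y ∉ Sq u ((J * N : ℕ) : ℤ) ∧ Con (nz g) x y)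
      ≤ pr (Ab D b) (fun g => ∃ i ∈ I, JnNz (Sq u n) (Sq (u.1 + N * i.1, u.2 + N * i.2) N) g) := by
        refine pr_mono fun g _ hg => ?_
        obtain ⟨x, hx, y, hy, hxy⟩ := hg
        have hxJ : x ∈ Sq u ((J * N : ℕ) : ℤ) := by
          refine Sq_mono ?_ hx
          have e' : 1 * N ≤ J * N := Nat.mul_le_mul_right _ hJ1
          rw [one_mul] at e'
          exact_mod_cast hnN.trans e'
        obtain ⟨p, q, h1, h2, h3, h4, h5, h6⟩ := hxy.exit (A := Sq u ((J * N : ℕ) : ℤ)) hxJ hy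
        have hp' : |p.1 - u.1| = (J : ℤ) * N ∨ |p.2 - u.2| = (J : ℤ) * N := by
          obtain ⟨a1, a2⟩ := adj_kng h2
          obtain ⟨a3, a4⟩ := h4
          have e : ((J * N : ℕ) : ℤ) = (J : ℤ) * N := by push_cast; rfl
          rw [e] at a3 a4 h6
          rw [not_mem_Sq] at h6
          rcases abs_cases (p.1 - u.1) with b1 | b1 <;> rcases abs_cases (p.2 - u.2) with b2 | b2 <;>
            rw [b1.1] at a3 ⊢ <;> rw [b2.1] at a4 ⊢ <;> rw [abs_le] at a1 a2 <;> omega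
        have h4' : p ∈ Sq u ((J : ℤ) * N) := by
          have e : ((J * N : ℕ) : ℤ) = (J : ℤ) * N := by push_cast; rfl
          rw [← e]
          exact h4
        obtain ⟨i, hi, hpi⟩ := net (J := (J : ℤ)) (N := (N : ℤ)) (by omega) (by omega) h4' hp'
        exact ⟨i, hi, x, hx, p, hpi, h1.mono (fun _ _ h => h) Set.inter_subset_left⟩
    _ ≤ ∑ i ∈ I, pr (Ab D b) (JnNz (Sq u n) (Sq (u.1 + N * i.1, u.2 + N * i.2) N)) := pr_bex_le _ _ _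
    _ ≤ ∑ i ∈ I, B / (c ^ 2 * c₃ * Real.sqrt m) := Finset.sum_le_sum hq
    _ = I.card * B / (c ^ 2 * c₃) / Real.sqrt m := by
        rw [Finset.sum_const, nsmul_eq_mul]
        field_simp
    _ ≤ ε := by
        rw [div_le_iff₀ hsm]
        have h1 : ε * Q ≤ ε * Real.sqrt m := mul_le_mul_of_nonneg_left hmQ hε.le
        have h2 : ε * Q = I.card * B / (c ^ 2 * c₃) := by
          rw [hQ]
          field_simp
        linarith

end CV
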