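import Pool.Agent.Helper75.CV.Df

/-!
# Project DV, block COV (F5a): second moment of the inner clusters
-/

open Finset RP4

namespace CV

open DV

private lemma Mi_ball (u : V) (m : ℕ) : ∃ B : Finset V, BdryPar B 0 ∧ Sq u m ⊆ (B : Set V) ∧
    ∀ a ∈ B, ∀ b ∈ B, |a.1 - b.1| ≤ ((4 * m + 2 : ℕ) : ℤ) ∧ |a.2 - b.2| ≤ ((4 * m + 2 : ℕ) : ℤ) := by
  obtain ⟨R, hR1, hR2, hR3⟩ : ∃ R : ℤ, 2 * (m : ℤ) ≤ R ∧ R ≤ 2 * m + 1 ∧ Even (R + par u) := by
    rcases Int.even_or_odd (par u) with h | h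
    · exact ⟨2 * m, le_rfl, by omega, (even_two_mul _).add h⟩
    · refine ⟨2 * m + 1, by omega, le_rfl, ?_⟩
      have h1 : Odd (2 * (m : ℤ) + 1) := ⟨m, rfl⟩
      exact h1.add_odd h
  refine ⟨Ann u (-1) R, fun v hv => ?_, fun v hv => ?_, fun a ha b hb => ?_⟩
  · obtain ⟨-, h | h⟩ := bdry_Ann hv
    · have := nr_nonneg u v
      omega
    · have h2 := nr_par u v
      rw [h] at h2
      have h3 : par v - 0 = (R + par u) - (R - par v - par u) - 2 * par u := by ring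
      rw [h3]
      exact (hR3.sub h2).sub (even_two_mul _)
  · rw [Finset.mem_coe, mem_Ann]
    have h1 := nr_le_of_Sq hv
    have h2 := nr_nonneg u v
    omega
  · rw [mem_Ann] at ha hb
    obtain ⟨a1, a2⟩ := Sq_of_nr_le ha.2
    obtain ⟨b1, b2⟩ := Sq_of_nr_le hb.2
    rw [abs_le] at a1 a2 b1 b2 ⊢
    rw [abs_le]
    push_cast
    exact ⟨⟨by omega, by omega⟩, by omega, by omega⟩

open Classical in
private lemma Mi_pair {D B : Finset V} (hB : BdryPar B 0) {u : V} {m : ℕ}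
    (hm : Sq u m ⊆ (D : Set V)) (hmB : Sq u m ⊆ (B : Set V)) (hD : BdryPar D 0) (x y : V) :
    avg (Om D) (fun g => if Disjoint ({x, y} : Set V) (rv (Sq u m)ᶜ g) then (g x : ℝ) * g y else 0) ≤
      MD.cv B x y := by
  have h := out_markov (locH_Om D) (Y := (Sq u m)ᶜ) (by rwa [compl_compl]) (A := {x, y})
    (F := fun g => (g x : ℝ) * g y) (fun g g' hg => by
      rw [hg x (by simp), hg y (by simp)]) (c := MD.cv B x y) (fun U hU hA hUY => by
      rw [compl_compl] at hUY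
      refine cov_mono U B (fun v hv => ?_) hU hB x y ?_ ?_
      · exact Finset.mem_coe.1 (hmB (hUY (Finset.mem_coe.2 hv)))
      · exact Finset.mem_coe.1 (hA (by simp))
      · exact Finset.mem_coe.1 (hA (by simp)))
  have hc : (0 : ℝ) < (Om D).card := by exact_mod_cast (Om_nonempty hD).card_pos
  unfold avg
  rw [div_le_iff₀ hc]
  refine h.trans (mul_le_mul_of_nonneg_left ?_ (MD.cv_nonneg B x y))
  calc ∑ g ∈ Om D, (if Disjoint ({x, y} : Set V) (rv (Sq u m)ᶜ g) then (1 : ℝ) else 0)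
      ≤ ∑ g ∈ Om D, (1 : ℝ) := Finset.sum_le_sum fun g _ => by split_ifs <;> norm_num
    _ = (Om D).card := by simp

/-- **F5a.** Second moment of the part of the clusters that stay in the square `Sq u m`.
PLAN.  `xi T u m g ^ 2 = ∑ x ∈ T, ∑ y ∈ T, if Disjoint {x, y} (rv Y g) then g x * g y else 0`, `Y = (Sq u m)ᶜ`.
`DV.out_markov` (Helper94/BR/Mk.lean) with `locH_Om D`, `A = {x, y}`, `F g = g x * g y`, `c = MD.cv B x y`, `B` a finite domain with
`BdryPar B 0` that contains `Sq u m` and has diameter at most `4 m + 2` in both coordinates: `B = Ann u (-1) R'` (Helper97/DV/Nr.lean,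
`bdry_Ann`, `mem_Ann`), `R' ∈ {2 m, 2 m + 1}` with `Even (R' + par u)` (`nr_par`).  The hypothesis of `out_markov`:
`avg (Om U) F ≤ MD.cv B x y` for flat `U ⊆ Sq u m ⊆ B` is `RP4.cov_mono`.  Then sum over `x, y ∈ T ⊆ B`: `∑ y ∈ T, cv B x y ≤
∑ y ∈ B, cv B y x` (`MD.cv_nonneg`, symmetric) `≤ C * (4 m + 2) ^ 2` (`MD.col_sum` with `R = 4 m + 2`) `≤ 36 C m ^ 2`. -/
theorem xi_sq : ∃ C : ℝ, 0 ≤ C ∧ ∀ (D : Finset V), BdryPar D 0 → ∀ (u : V) (m : ℕ), 1 ≤ m →
    Sq u m ⊆ (D : Set V) → ∀ T : Finset V, (T : Set V) ⊆ Sq u m →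
      avg (Om D) (fun g => xi T u m g ^ 2) ≤ C * (m : ℝ) ^ 2 * T.card := by
  classical
  obtain ⟨C, hC, hcol⟩ := MD.col_sum
  refine ⟨36 * C, by positivity, fun D hD u m hm hSD T hT => ?_⟩
  obtain ⟨B, hB, hSB, hdiam⟩ := Mi_ball u m
  have h1 : (fun g : V → ℤ => xi T u m g ^ 2) = fun g => ∑ x ∈ T, ∑ y ∈ T,
      if Disjoint ({x, y} : Set V) (rv (Sq u m)ᶜ g) then (g x : ℝ) * g y else 0 := by
    funext g
    unfold xi
    rw [pow_two, Finset.sum_mul_sum]
    refine Finset.sum_congr rfl fun x _ => Finset.sum_congr rfl fun y _ => ?_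
    by_cases hx : x ∈ rv (Sq u m)ᶜ g
    · rw [if_pos hx, zero_mul, if_neg]
      exact fun h => Set.disjoint_left.1 h (by simp) hx
    · by_cases hy : y ∈ rv (Sq u m)ᶜ g
      · rw [if_pos hy, mul_zero, if_neg]
        exact fun h => Set.disjoint_left.1 h (by simp) hy
      · rw [if_neg hx, if_neg hy, if_pos]
        rw [Set.disjoint_left]
        rintro z (rfl | hz)
        · exact hx
        · rw [Set.mem_singleton_iff] at hz
          subst hz
          exact hy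
  rw [h1, avg_sum]
  have h2 : ∀ x ∈ T, ∑ y ∈ T, MD.cv B x y ≤ C * (36 * (m : ℝ) ^ 2) := by
    intro x hx
    have hxB : x ∈ B := Finset.mem_coe.1 (hSB (hT (Finset.mem_coe.2 hx)))
    have hTB : T ⊆ B := fun z hz => Finset.mem_coe.1 (hSB (hT (Finset.mem_coe.2 hz)))
    have hsym : ∀ a b : V, MD.cv B a b = MD.cv B b a := fun a b => by
      unfold MD.cv
      congr 1
      funext h
      ring
    calc ∑ y ∈ T, MD.cv B x y = ∑ y ∈ T, MD.cv B y x := Finset.sum_congr rfl fun y _ => hsym x y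
      _ ≤ ∑ y ∈ B, MD.cv B y x :=
          Finset.sum_le_sum_of_subset_of_nonneg hTB fun y _ _ => MD.cv_nonneg B y x
      _ ≤ C * ((4 * m + 2 : ℕ) : ℝ) ^ 2 := hcol (4 * m + 2) (by omega) B hB hdiam x hxB
      _ ≤ C * (36 * (m : ℝ) ^ 2) := by
          refine mul_le_mul_of_nonneg_left ?_ hC
          have h3 : (1 : ℝ) ≤ m := by exact_mod_cast hm
          push_cast
          nlinarith
  calc ∑ x ∈ T, avg (Om D) (fun g => ∑ y ∈ T,
        if Disjoint ({x, y} : Set V) (rv (Sq u m)ᶜ g) then (g x : ℝ) * g y else 0)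
      ≤ ∑ x ∈ T, ∑ y ∈ T, MD.cv B x y := by
        refine Finset.sum_le_sum fun x _ => ?_
        rw [avg_sum]
        exact Finset.sum_le_sum fun y _ => Mi_pair hB hSD hSB hD x y
    _ ≤ ∑ _x ∈ T, C * (36 * (m : ℝ) ^ 2) := Finset.sum_le_sum h2
    _ = 36 * C * (m : ℝ) ^ 2 * T.card := by
        rw [Finset.sum_const, nsmul_eq_mul]
        ring

end CV
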