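import Pool.Agent.Helper75.CV.In

/-!
# Project DV, block COV (F6): constant boundary values
-/

open Finset RP4

namespace CV

open DV

lemma sh_in {D : Finset V} {b : ℤ} {g : V → ℤ} {v : V} (h : v ∈ D) : sh D b g v = g v + b := if_pos h

lemma sh_out {D : Finset V} {b : ℤ} {g : V → ℤ} {v : V} (h : v ∉ D) : sh D b g v = 0 := if_neg h

lemma sh_hom {D : Finset V} {b : ℤ} (hb : Even b) {g : V → ℤ} (hg : IsHom D 0 g) : IsHom D 0 (sh D b g) := by
  refine ⟨fun v hv => sh_out hv, fun v hv => ?_, fun x hx y hy hxy => ?_⟩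
  · rw [sh_in hv]
    have h1 := hg.par v hv
    rw [Int.even_iff] at h1 hb ⊢
    omega
  · rw [sh_in hx, sh_in hy, add_sub_add_right_eq_sub]
    exact hg.step x hx y hy hxy

lemma sh_sh {D : Finset V} {b : ℤ} {g : V → ℤ} (hg : ∀ v, v ∉ D → g v = 0) : sh D b (sh D (-b) g) = g := by
  funext v
  by_cases h : v ∈ D
  · rw [sh_in h, sh_in h]
    ring
  · rw [sh_out h, hg v h]

lemma mem_Ab {D : Finset V} {b : ℤ} (hb : Even b) (g : V → ℤ) :
    g ∈ Ab D b ↔ IsHom D 0 g ∧ ∀ v ∈ bdry D, g v = b := by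
  classical
  unfold Ab
  rw [Finset.mem_image]
  constructor
  · rintro ⟨g₀, hg₀, rfl⟩
    obtain ⟨h1, h2⟩ := mem_Om.1 hg₀
    refine ⟨sh_hom hb h1, fun v hv => ?_⟩
    rw [sh_in (bdry_subset D hv), h2 v hv, zero_add]
  · rintro ⟨h1, h2⟩
    refine ⟨sh D (-b) g, mem_Om.2 ⟨sh_hom hb.neg h1, fun v hv => ?_⟩, sh_sh h1.off⟩
    rw [sh_in (bdry_subset D hv), h2 v hv]
    ring

lemma sh_inj {D : Finset V} {b : ℤ} {g g' : V → ℤ} (hg : g ∈ Om D) (hg' : g' ∈ Om D)
    (h : sh D b g = sh D b g') : g = g' := by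
  funext v
  by_cases hv : v ∈ D
  · have h1 := congrFun h v
    rw [sh_in hv, sh_in hv] at h1
    omega
  · rw [(mem_Om.1 hg).1.off v hv, (mem_Om.1 hg').1.off v hv]

lemma avg_Ab (D : Finset V) (b : ℤ) (F : (V → ℤ) → ℝ) :
    avg (Ab D b) F = avg (Om D) fun g => F (sh D b g) := by
  classical
  unfold avg Ab
  rw [Finset.sum_image fun g hg g' hg' h => sh_inj (Finset.mem_coe.1 hg) (Finset.mem_coe.1 hg') h,
    Finset.card_image_of_injOn fun g hg g' hg' h => sh_inj (Finset.mem_coe.1 hg) (Finset.mem_coe.1 hg') h]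

lemma Ab_zero (D : Finset V) : Ab D 0 = Om D := by
  ext g
  rw [mem_Ab Even.zero, mem_Om]

lemma Ab_nonempty {D : Finset V} (hD : BdryPar D 0) (b : ℤ) : (Ab D b).Nonempty := by
  classical
  exact (Om_nonempty hD).image _

lemma fam_Ab {D : Finset V} {b : ℤ} (hb : Even b) (hb0 : 0 ≤ b) :
    Fam D 0 (bdry D : Set V) (Tb (bdry D : Set V) fun _ => b) (Ab D b) :=
  fam_bdv (fun _ _ => hb0) fun g => by
    rw [mem_Ab hb]
    rfl

/-- raising the boundary value -/
lemma avg_Ab_mono {D : Finset V} (hD : BdryPar D 0) {b : ℤ} (hb : Even b) (hb0 : 0 ≤ b) {F : (V → ℤ) → ℝ}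
    (hF : IncF F) : avg (Om D) F ≤ avg (Ab D b) F := by
  rw [← Ab_zero D]
  exact bdv_inc (Z := (bdry D : Set V)) (β := fun _ => b) (β' := fun _ => 0) (fun _ _ => le_rfl) (fun _ _ => hb0)
    (fun g => by rw [mem_Ab Even.zero]; rfl) (fun g => by rw [mem_Ab hb]; rfl) (Ab_nonempty hD 0) (Ab_nonempty hD b) hF

lemma pr_Ab_mono {D : Finset V} (hD : BdryPar D 0) {b : ℤ} (hb : Even b) (hb0 : 0 ≤ b) {E : (V → ℤ) → Prop}
    (hE : Inc E) : pr (Om D) E ≤ pr (Ab D b) E := avg_Ab_mono hD hb hb0 hE.incF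

lemma sm_sh {D T : Finset V} (hT : T ⊆ D) (b : ℤ) (g : V → ℤ) : sm T (sh D b g) = sm T g + b * T.card := by
  unfold sm
  have h1 : ∀ x ∈ T, ((sh D b g x : ℤ) : ℝ) = (g x : ℝ) + b := fun x hx => by
    rw [sh_in (hT hx)]
    push_cast
    ring
  rw [Finset.sum_congr rfl h1, Finset.sum_add_distrib, Finset.sum_const, nsmul_eq_mul]
  ring

lemma sm_neg (T : Finset V) (g : V → ℤ) : sm T (fun v => -g v) = -sm T g := by
  unfold sm
  rw [← Finset.sum_neg_distrib]
  exact Finset.sum_congr rfl fun x _ => by push_cast; ring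

lemma avg_sm (D T : Finset V) : avg (Om D) (sm T) = 0 := by
  have h1 := avg_neg_Om (D := D) (sm T)
  have h2 : (fun g : V → ℤ => sm T (fun v => -g v)) = fun g => -sm T g := by
    funext g
    exact sm_neg T g
  have h3 : avg (Om D) (fun g => -sm T g) = -avg (Om D) (sm T) := by
    unfold avg
    rw [Finset.sum_neg_distrib, neg_div]
  have h4 : avg (Om D) (fun g => sm T (fun v => -g v)) = avg (Om D) (sm T) := h1
  rw [h2, h3] at h4
  linarith

/-- second moments with the boundary value `b` -/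
lemma avg_Ab_sm {D T S : Finset V} (hD : BdryPar D 0) (hT : T ⊆ D) (hS : S ⊆ D) (b : ℤ) :
    avg (Ab D b) (fun g => sm T g * sm S g) =
      avg (Om D) (fun g => sm T g * sm S g) + (b : ℝ) ^ 2 * (T.card * S.card) := by
  rw [avg_Ab]
  have hc : (0 : ℝ) < (Om D).card := by exact_mod_cast (Om_nonempty hD).card_pos
  have h1 : ∑ g ∈ Om D, sm T (sh D b g) * sm S (sh D b g) = ∑ g ∈ Om D, sm T g * sm S g +
      (b * S.card) * ∑ g ∈ Om D, sm T g + (b * T.card) * ∑ g ∈ Om D, sm S g +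
      (Om D).card * ((b : ℝ) ^ 2 * (T.card * S.card)) := by
    rw [Finset.mul_sum, Finset.mul_sum, ← Finset.sum_add_distrib, ← Finset.sum_add_distrib]
    have h2 : ((Om D).card : ℝ) * ((b : ℝ) ^ 2 * (T.card * S.card)) =
        ∑ g ∈ Om D, (b : ℝ) ^ 2 * (T.card * S.card) := by
      rw [Finset.sum_const, nsmul_eq_mul]
    rw [h2, ← Finset.sum_add_distrib]
    refine Finset.sum_congr rfl fun g _ => ?_
    rw [sm_sh hT, sm_sh hS]
    ring
  have h3 : ∀ T : Finset V, ∑ g ∈ Om D, sm T g = 0 := fun T => by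
    have h4 := avg_sm D T
    unfold avg at h4
    rw [div_eq_zero_iff] at h4
    rcases h4 with h4 | h4
    · exact h4
    · exact absurd h4 hc.ne'
  unfold avg
  rw [h1, h3, h3]
  field_simp
  ring

end CV
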